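import Mathlib

/-!
A two-charge Toom contour lemma, in the form of walks.
-/

set_option autoImplicit false

namespace Pool.Agent.Lib.MP_0d8a84_pr

open Finset

variable {V : Type*} [DecidableEq V]

/-- `Wk nbr a b n S`: there is a walk from `a` to `b` with `n` steps and vertex set `S`. -/
inductive Wk (nbr : V → Finset V) : V → V → ℕ → Finset V → Prop
  | nil (a : V) : Wk nbr a a 0 {a}
  | cons {a b c : V} {n : ℕ} {S : Finset V} :
      b ∈ nbr a → Wk nbr b c n S → Wk nbr a c (n + 1) (insert a S)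

theorem Wk.start_mem {nbr : V → Finset V} {a b : V} {n : ℕ} {S : Finset V}
    (h : Wk nbr a b n S) : a ∈ S := by
  cases h <;> simp

theorem Wk.append {nbr : V → Finset V} {a b c : V} {n m : ℕ} {S T : Finset V}
    (h : Wk nbr a b n S) (h' : Wk nbr b c m T) : Wk nbr a c (n + m) (S ∪ T) := by
  induction h with
  | nil a =>
    have : ({a} : Finset V) ∪ T = T := by
      ext x
      simp only [mem_union, mem_singleton]
      constructor
      · rintro (rfl | h)
        · exact h'.start_mem
        · exact h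
      · exact Or.inr
    rw [this, zero_add]; exact h'
  | @cons a b c' n S hab _ ih =>
    have := Wk.cons hab (ih h')
    rw [insert_union, show n + 1 + m = n + m + 1 by ring]
    exact this

theorem Wk.single {nbr : V → Finset V} {a b : V} (h : b ∈ nbr a) : Wk nbr a b 1 {a, b} :=
  Wk.cons h (Wk.nil b)

/-- All vertex sets of walks with `n` steps from `a`. -/
def fam (nbr : V → Finset V) : ℕ → V → Finset (Finset V)
  | 0, a => {{a}}
  | n + 1, a => (nbr a).biUnion fun b => (fam nbr n b).image (insert a)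

theorem Wk.mem_fam {nbr : V → Finset V} {a b : V} {n : ℕ} {S : Finset V}
    (h : Wk nbr a b n S) : S ∈ fam nbr n a := by
  induction h with
  | nil a => simp [fam]
  | @cons a b c n S hab _ ih =>
    simp only [fam, mem_biUnion, mem_image]
    exact ⟨b, hab, S, ih, rfl⟩

theorem card_fam_le (nbr : V → Finset V) (Δ : ℕ) (hΔ : ∀ a, (nbr a).card ≤ Δ) (n : ℕ) (a : V) :
    (fam nbr n a).card ≤ Δ ^ n := by
  induction n generalizing a with
  | zero => simp [fam]
  | succ n ih =>
    calc (fam nbr (n + 1) a).card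
        ≤ ∑ b ∈ nbr a, ((fam nbr n b).image (insert a)).card := card_biUnion_le
      _ ≤ ∑ _b ∈ nbr a, Δ ^ n := sum_le_sum fun b _ => card_image_le.trans (ih b)
      _ = (nbr a).card * Δ ^ n := by simp
      _ ≤ Δ * Δ ^ n := Nat.mul_le_mul_right _ (hΔ a)
      _ = Δ ^ (n + 1) := by ring

theorem card_le_of_mem_fam (nbr : V → Finset V) (n : ℕ) (a : V) (S : Finset V)
    (h : S ∈ fam nbr n a) : S.card ≤ n + 1 := by
  induction n generalizing a S with
  | zero =>
    simp only [fam, mem_singleton] at h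
    simp [h]
  | succ n ih =>
    simp only [fam, mem_biUnion, mem_image] at h
    obtain ⟨b, _, T, hT, rfl⟩ := h
    exact (card_insert_le _ _).trans (by have := ih b T hT; omega)

/-- A block in which any two vertices are joined by a walk that is paid for by noise. -/
def GoodBlk (nbr : V → Finset V) (L : V → ℤ) (N : V → Prop) [DecidablePred N] (E : ℤ)
    (K : Finset V) : Prop :=
  ∀ a ∈ K, ∀ b ∈ K, ∃ n S, Wk nbr a b n S ∧ S ⊆ K ∧
    (n : ℤ) + L b - L a + E ≤ E * ((S.filter N).card : ℤ)

theorem goodBlk_merge (nbr : V → Finset V) (hsym : ∀ a b, b ∈ nbr a → a ∈ nbr b)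
    (L : V → ℤ) (c : ℤ) (hc0 : 0 ≤ c) (hc : ∀ a b, b ∈ nbr a → L b - L a ≤ c)
    (N : V → Prop) [DecidablePred N] (v up dn : V) (K1 K2 : Finset V)
    (h1 : GoodBlk nbr L N (2 * c + 2) K1) (h2 : GoodBlk nbr L N (2 * c + 2) K2)
    (h12 : K1 = K2 ∨ Disjoint K1 K2)
    (hup : up ∈ nbr v) (hdn : dn ∈ nbr v) (hup1 : up ∈ K1) (hdn2 : dn ∈ K2)
    (hLup : L v + 1 ≤ L up) (hLdn : L dn + 1 ≤ L v) :
    GoodBlk nbr L N (2 * c + 2) (insert v (K1 ∪ K2)) := by
  set E : ℤ := 2 * c + 2 with hE
  have hE0 : 0 ≤ E := by omega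
  -- crossing from one block to the other through `v`
  have cross : ∀ (A B : Finset V) (x y : V), GoodBlk nbr L N E A → GoodBlk nbr L N E B →
      Disjoint A B → x ∈ nbr v → y ∈ nbr v → x ∈ A → y ∈ B → ∀ a ∈ A, ∀ b ∈ B,
      ∃ n S, Wk nbr a b n S ∧ S ⊆ insert v (A ∪ B) ∧
        (n : ℤ) + L b - L a + E ≤ E * ((S.filter N).card : ℤ) := by
    intro A B x y hA hB hAB hx hy hxA hyB a ha b hb
    obtain ⟨n1, S1, w1, s1, e1⟩ := hA a ha x hxA
    obtain ⟨n2, S2, w2, s2, e2⟩ := hB y hyB b hb
    have w := (w1.append (Wk.single (hsym _ _ hx))).append (Wk.cons hy w2)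
    refine ⟨_, _, w, ?_, ?_⟩
    · intro z hz
      simp only [mem_union, mem_insert, mem_singleton] at hz ⊢
      rcases hz with (hz | rfl | rfl) | rfl | hz
      · exact Or.inr (Or.inl (s1 hz))
      · exact Or.inr (Or.inl hxA)
      · exact Or.inl rfl
      · exact Or.inl rfl
      · exact Or.inr (Or.inr (s2 hz))
    · have hd : Disjoint (S1.filter N) (S2.filter N) :=
        (hAB.mono s1 s2).mono (filter_subset _ _) (filter_subset _ _)
      have hsub : S1.filter N ∪ S2.filter N ⊆ (S1 ∪ {x, v} ∪ insert v S2).filter N := by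
        intro z hz
        simp only [mem_union, mem_filter, mem_insert, mem_singleton] at hz ⊢
        tauto
      have hcard := card_le_card hsub
      rw [card_union_of_disjoint hd] at hcard
      have hcard' : ((S1.filter N).card : ℤ) + (S2.filter N).card ≤
          ((S1 ∪ {x, v} ∪ insert v S2).filter N).card := by exact_mod_cast hcard
      have k1 := hc _ _ (hsym _ _ hx)
      have k2 := hc _ _ hy
      have := mul_le_mul_of_nonneg_left hcard' hE0
      push_cast
      linarith
  have inner : ∀ a ∈ K1 ∪ K2, ∀ b ∈ K1 ∪ K2, ∃ n S, Wk nbr a b n S ∧ S ⊆ insert v (K1 ∪ K2) ∧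
      (n : ℤ) + L b - L a + E ≤ E * ((S.filter N).card : ℤ) := by
    intro a ha b hb
    rcases h12 with rfl | hd
    · rw [union_self] at ha hb ⊢
      obtain ⟨n, S, w, s, e⟩ := h1 a ha b hb
      exact ⟨n, S, w, s.trans (subset_insert _ _), e⟩
    · rcases mem_union.1 ha with ha | ha <;> rcases mem_union.1 hb with hb | hb
      · obtain ⟨n, S, w, s, e⟩ := h1 a ha b hb
        exact ⟨n, S, w, s.trans (subset_union_left.trans (subset_insert _ _)), e⟩
      · exact cross K1 K2 up dn h1 h2 hd hup hdn hup1 hdn2 a ha b hb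
      · have := cross K2 K1 dn up h2 h1 hd.symm hdn hup hdn2 hup1 a ha b hb
        rwa [union_comm] at this
      · obtain ⟨n, S, w, s, e⟩ := h2 a ha b hb
        exact ⟨n, S, w, s.trans (subset_union_right.trans (subset_insert _ _)), e⟩
  have hupK : up ∈ K1 ∪ K2 := mem_union_left _ hup1
  have hdnK : dn ∈ K1 ∪ K2 := mem_union_right _ hdn2
  -- allow the end point to be `v`
  have inner2 : ∀ a ∈ K1 ∪ K2, ∀ b ∈ insert v (K1 ∪ K2),
      ∃ n S, Wk nbr a b n S ∧ S ⊆ insert v (K1 ∪ K2) ∧
      (n : ℤ) + L b - L a + E ≤ E * ((S.filter N).card : ℤ) := by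
    intro a ha b hb
    rcases mem_insert.1 hb with rfl | hb
    · obtain ⟨n, S, w, s, e⟩ := inner a ha up hupK
      refine ⟨_, _, w.append (Wk.single (hsym _ _ hup)), ?_, ?_⟩
      · intro z hz
        simp only [mem_union, mem_insert, mem_singleton] at hz
        rcases hz with hz | rfl | rfl
        · exact s hz
        · exact mem_insert_of_mem hupK
        · exact mem_insert_self _ _
      · have hcard : (S.filter N).card ≤ ((S ∪ {up, b}).filter N).card :=
          card_le_card (filter_subset_filter _ subset_union_left)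
        have hcard' : ((S.filter N).card : ℤ) ≤ ((S ∪ {up, b}).filter N).card := by
          exact_mod_cast hcard
        have := mul_le_mul_of_nonneg_left hcard' hE0
        push_cast
        linarith
    · exact inner a ha b hb
  intro a ha b hb
  rcases mem_insert.1 ha with rfl | ha
  · obtain ⟨n, S, w, s, e⟩ := inner2 dn hdnK b hb
    refine ⟨_, _, Wk.cons hdn w, ?_, ?_⟩
    · exact insert_subset (mem_insert_self _ _) s
    · have hcard : (S.filter N).card ≤ ((insert a S).filter N).card :=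
        card_le_card (filter_subset_filter _ (subset_insert _ _))
      have hcard' : ((S.filter N).card : ℤ) ≤ ((insert a S).filter N).card := by
        exact_mod_cast hcard
      have := mul_le_mul_of_nonneg_left hcard' hE0
      push_cast
      linarith
  · exact inner2 a ha b hb

/-- The two-charge Toom contour lemma. -/
theorem toom (nbr : V → Finset V) (hsym : ∀ a b, b ∈ nbr a → a ∈ nbr b)
    (L : V → ℤ) (c : ℤ) (hc0 : 0 ≤ c) (hc : ∀ a b, b ∈ nbr a → L b - L a ≤ c)
    (N : V → Prop) [DecidablePred N] (D : V → Prop) (τ : V → ℕ)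
    (hup : ∀ v, D v → ¬ N v → ∃ u ∈ nbr v, D u ∧ τ u < τ v ∧ L v + 1 ≤ L u)
    (hdn : ∀ v, D v → ¬ N v → ∃ u ∈ nbr v, D u ∧ τ u < τ v ∧ L u + 1 ≤ L v)
    (v0 : V) (h0 : D v0) :
    ∃ n S, Wk nbr v0 v0 n S ∧ (n : ℤ) + (2 * c + 2) ≤ (2 * c + 2) * ((S.filter N).card : ℤ) := by
  classical
  choose! up hup1 hup2 hup3 hup4 using hup
  choose! dn hdn1 hdn2 hdn3 hdn4 using hdn
  have exF : ∀ t v, τ v = t → D v → ∃ F : Finset V, v ∈ F ∧ (∀ x ∈ F, D x) ∧
      ∀ x ∈ F, ¬ N x → up x ∈ F ∧ dn x ∈ F := by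
    intro t
    induction t using Nat.strong_induction_on with
    | _ t ih =>
      intro v hv hD
      by_cases hN : N v
      · exact ⟨{v}, mem_singleton_self _, by simpa using hD, by simpa using fun h => (h hN).elim⟩
      · obtain ⟨F1, a1, b1, c1⟩ := ih _ (hv ▸ hup3 v hD hN) (up v) rfl (hup2 v hD hN)
        obtain ⟨F2, a2, b2, c2⟩ := ih _ (hv ▸ hdn3 v hD hN) (dn v) rfl (hdn2 v hD hN)
        refine ⟨insert v (F1 ∪ F2), mem_insert_self _ _, ?_, ?_⟩
        · intro x hx
          simp only [mem_insert, mem_union] at hx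
          rcases hx with rfl | hx | hx
          exacts [hD, b1 x hx, b2 x hx]
        · intro x hx hNx
          simp only [mem_insert, mem_union] at hx ⊢
          rcases hx with rfl | hx | hx
          · exact ⟨Or.inr (Or.inl a1), Or.inr (Or.inr a2)⟩
          · exact ⟨Or.inr (Or.inl (c1 x hx hNx).1), Or.inr (Or.inl (c1 x hx hNx).2)⟩
          · exact ⟨Or.inr (Or.inr (c2 x hx hNx).1), Or.inr (Or.inr (c2 x hx hNx).2)⟩
  have key : ∀ F : Finset V, (∀ x ∈ F, D x) → (∀ x ∈ F, ¬ N x → up x ∈ F ∧ dn x ∈ F) →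
      ∃ P : Set (Finset V), (∀ K ∈ P, GoodBlk nbr L N (2 * c + 2) K ∧ K ⊆ F) ∧
        (∀ x ∈ F, ∃ K ∈ P, x ∈ K) ∧ ∀ K ∈ P, ∀ K' ∈ P, K = K' ∨ Disjoint K K' := by
    intro F
    induction F using Finset.induction_on_max_value τ with
    | empty => intro _ _; exact ⟨∅, by simp, by simp, by simp⟩
    | insert v s hvs hmax ih =>
      intro hD hcl
      have hDs : ∀ x ∈ s, D x := fun x hx => hD x (mem_insert_of_mem hx)
      have hcl' : ∀ x ∈ insert v s, ¬ N x → up x ∈ s ∧ dn x ∈ s := by
        intro x hx hNx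
        have hτ : τ x ≤ τ v := by
          rcases mem_insert.1 hx with rfl | hx
          · exact le_rfl
          · exact hmax x hx
        obtain ⟨k1, k2⟩ := hcl x hx hNx
        have t1 := hup3 x (hD x hx) hNx
        have t2 := hdn3 x (hD x hx) hNx
        refine ⟨(mem_insert.1 k1).resolve_left ?_, (mem_insert.1 k2).resolve_left ?_⟩
        · intro h; rw [h] at t1; omega
        · intro h; rw [h] at t2; omega
      obtain ⟨P, p1, p2, p3⟩ := ih hDs fun x hx => hcl' x (mem_insert_of_mem hx)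
      have hDv : D v := hD v (mem_insert_self _ _)
      by_cases hN : N v
      · refine ⟨insert {v} P, ?_, ?_, ?_⟩
        · rintro K (rfl | hK)
          · refine ⟨?_, by simp⟩
            intro a ha b hb
            rw [mem_singleton] at ha hb
            subst ha hb
            refine ⟨0, {_}, Wk.nil _, subset_rfl, ?_⟩
            rw [filter_singleton, if_pos hN]
            simp
          · exact ⟨(p1 K hK).1, (p1 K hK).2.trans (subset_insert _ _)⟩
        · intro x hx
          rcases mem_insert.1 hx with rfl | hx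
          · exact ⟨{x}, Set.mem_insert _ _, mem_singleton_self _⟩
          · obtain ⟨K, hK, hxK⟩ := p2 x hx
            exact ⟨K, Set.mem_insert_of_mem _ hK, hxK⟩
        · rintro K (rfl | hK) K' (rfl | hK')
          · exact Or.inl rfl
          · exact Or.inr (disjoint_singleton_left.2 fun h => hvs ((p1 K' hK').2 h))
          · exact Or.inr (disjoint_singleton_right.2 fun h => hvs ((p1 K hK).2 h))
          · exact p3 K hK K' hK'
      · obtain ⟨hu, hd⟩ := hcl' v (mem_insert_self _ _) hN
        obtain ⟨K1, hK1, hu1⟩ := p2 _ hu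
        obtain ⟨K2, hK2, hd2⟩ := p2 _ hd
        have hg := goodBlk_merge nbr hsym L c hc0 hc N v (up v) (dn v) K1 K2 (p1 K1 hK1).1
          (p1 K2 hK2).1 (p3 K1 hK1 K2 hK2) (hup1 v hDv hN) (hdn1 v hDv hN) hu1 hd2
          (hup4 v hDv hN) (hdn4 v hDv hN)
        have hdisj : ∀ K ∈ P, K ≠ K1 → K ≠ K2 → Disjoint K (insert v (K1 ∪ K2)) := by
          intro K hK n1 n2
          rw [disjoint_insert_right, disjoint_union_right]
          exact ⟨fun h => hvs ((p1 K hK).2 h), (p3 K hK K1 hK1).resolve_left n1,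
            (p3 K hK K2 hK2).resolve_left n2⟩
        refine ⟨insert (insert v (K1 ∪ K2)) {K | K ∈ P ∧ K ≠ K1 ∧ K ≠ K2}, ?_, ?_, ?_⟩
        · rintro K (rfl | hK)
          · exact ⟨hg, insert_subset_insert _ (union_subset (p1 K1 hK1).2 (p1 K2 hK2).2)⟩
          · exact ⟨(p1 K hK.1).1, (p1 K hK.1).2.trans (subset_insert _ _)⟩
        · intro x hx
          rcases mem_insert.1 hx with rfl | hx
          · exact ⟨_, Set.mem_insert _ _, mem_insert_self _ _⟩
          · obtain ⟨K, hK, hxK⟩ := p2 x hx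
            by_cases e1 : K = K1
            · exact ⟨_, Set.mem_insert _ _, mem_insert_of_mem (mem_union_left _ (e1 ▸ hxK))⟩
            by_cases e2 : K = K2
            · exact ⟨_, Set.mem_insert _ _, mem_insert_of_mem (mem_union_right _ (e2 ▸ hxK))⟩
            exact ⟨K, Set.mem_insert_of_mem _ ⟨hK, e1, e2⟩, hxK⟩
        · rintro K (rfl | hK) K' (rfl | hK')
          · exact Or.inl rfl
          · exact Or.inr (hdisj K' hK'.1 hK'.2.1 hK'.2.2).symm
          · exact Or.inr (hdisj K hK.1 hK.2.1 hK.2.2)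
          · exact p3 K hK.1 K' hK'.1
  obtain ⟨F, f1, f2, f3⟩ := exF _ v0 rfl h0
  obtain ⟨P, p1, p2, -⟩ := key F f2 f3
  obtain ⟨K, hK, hv⟩ := p2 v0 f1
  obtain ⟨n, S, w, -, e⟩ := (p1 K hK).1 v0 hv v0 hv
  exact ⟨n, S, w, by linarith⟩

end Pool.Agent.Lib.MP_0d8a84_pr
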