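import Mathlib
import Pool.Agent.Lib.MP_0d8a84_pr.Toom

/-!
The deterministic part: a nice closed site protects the corner simplex above it.
-/

set_option autoImplicit false

namespace Pool.Agent.Lib.MP_0d8a84_pr

open Finset

abbrev Site := ℤ × ℤ × ℤ

/-- The six neighbours of a site. -/
def nb (x : Site) : Finset Site :=
  {(x.1 + 1, x.2.1, x.2.2), (x.1 - 1, x.2.1, x.2.2), (x.1, x.2.1 + 1, x.2.2),
    (x.1, x.2.1 - 1, x.2.2), (x.1, x.2.1, x.2.2 + 1), (x.1, x.2.1, x.2.2 - 1)}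

theorem mem_nb {x y : Site} :
    y ∈ nb x ↔ |x.1 - y.1| + |x.2.1 - y.2.1| + |x.2.2 - y.2.2| = 1 := by
  obtain ⟨x1, x2, x3⟩ := x
  obtain ⟨y1, y2, y3⟩ := y
  simp only [nb, mem_insert, mem_singleton, Prod.mk.injEq]
  constructor
  · rintro (⟨rfl, rfl, rfl⟩ | ⟨rfl, rfl, rfl⟩ | ⟨rfl, rfl, rfl⟩ | ⟨rfl, rfl, rfl⟩ |
      ⟨rfl, rfl, rfl⟩ | ⟨rfl, rfl, rfl⟩) <;> simp
  · intro h
    rcases abs_cases (x1 - y1) with h1 | h1 <;> rcases abs_cases (x2 - y2) with h2 | h2 <;>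
      rcases abs_cases (x3 - y3) with h3 | h3 <;> omega

theorem card_nb_le (x : Site) : (nb x).card ≤ 6 := by
  unfold nb
  exact card_le_six

open Classical in
/-- The occupied set at time `t`. -/
def Occ (ω : Site → Fin 3) : ℕ → Set Site
  | 0 => {x | ω x = 0}
  | t + 1 => Occ ω t ∪ {x | ω x ≠ 1 ∧ 3 ≤ ((nb x).filter (· ∈ Occ ω t)).card}

theorem occ_mono (ω : Site → Fin 3) : Monotone (Occ ω) :=
  monotone_nat_of_le_succ fun _ => Set.subset_union_left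

theorem final_subset (ω : Site → Fin 3) (z : Site)
    (hz : z ∈ ⋂₀ {S : Set Site | (∀ x, ω x = 0 → x ∈ S) ∧
      (∀ x, ω x ≠ 1 →
        3 ≤ ({y ∈ S | |x.1 - y.1| + |x.2.1 - y.2.1| + |x.2.2 - y.2.2| = 1}).ncard → x ∈ S)}) :
    ∃ t, z ∈ Occ ω t := by
  classical
  have := Set.mem_sInter.1 hz (⋃ t, Occ ω t) ⟨fun x hx => Set.mem_iUnion.2 ⟨0, hx⟩, ?_⟩
  · exact Set.mem_iUnion.1 this
  intro x hx h3
  have e : {y ∈ ⋃ t, Occ ω t | |x.1 - y.1| + |x.2.1 - y.2.1| + |x.2.2 - y.2.2| = 1} =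
      (((nb x).filter (· ∈ ⋃ t, Occ ω t) : Finset Site) : Set Site) := by
    ext y
    simp only [Set.mem_ofPred_eq, coe_filter, mem_nb]
    tauto
  rw [e, Set.ncard_coe_finset] at h3
  have hT : ∀ A : Finset Site, (∀ y ∈ A, ∃ t, y ∈ Occ ω t) → ∃ T, ∀ y ∈ A, y ∈ Occ ω T := by
    intro A hA
    choose! t ht using hA
    exact ⟨A.sup t, fun y hy => occ_mono ω (le_sup hy) (ht y hy)⟩
  obtain ⟨T, hT⟩ := hT ((nb x).filter (· ∈ ⋃ t, Occ ω t))
    fun y hy => Set.mem_iUnion.1 (mem_filter.1 hy).2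
  refine Set.mem_iUnion.2 ⟨T + 1, Or.inr ⟨hx, h3.trans (card_le_card ?_)⟩⟩
  intro y hy
  exact mem_filter.2 ⟨(mem_filter.1 hy).1, hT y hy⟩

open Classical in
theorem protect (ω : Site → Fin 3) (W T : Set Site)
    (hW : ∀ z ∈ W, ω z ≠ 1 → ((nb z).filter fun y => y ∉ W ∪ T ∨ ω y = 0).card ≤ 2)
    (t : ℕ) (hT : ∀ y ∈ T, ∀ s < t, y ∈ Occ ω s → ω y = 0) :
    ∀ s ≤ t, ∀ z ∈ W, z ∈ Occ ω s → ω z = 0 := by
  intro s
  induction s with
  | zero => intro _ z _ hz; exact hz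
  | succ s ih =>
    intro hs z hzW hz
    rcases hz with hz | ⟨h1, h3⟩
    · exact ih (by omega) z hzW hz
    · exfalso
      have := hW z hzW h1
      have hsub : (nb z).filter (· ∈ Occ ω s) ⊆
          (nb z).filter fun y => y ∉ W ∪ T ∨ ω y = 0 := by
        intro y hy
        rw [mem_filter] at hy ⊢
        refine ⟨hy.1, ?_⟩
        by_cases h : y ∈ W ∪ T
        · right
          rcases h with h | h
          · exact ih (by omega) y h hy.2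
          · exact hT y h s (by omega) hy.2
        · exact Or.inl h
      have := card_le_card hsub
      omega

/-- Number of zero coordinates. -/
def kz (d : Site) : ℕ :=
  (if d.1 = 0 then 1 else 0) + (if d.2.1 = 0 then 1 else 0) + (if d.2.2 = 0 then 1 else 0)

/-- The cube of radius `R` around `0`. -/
noncomputable def cube (R : ℤ) : Finset Site := Icc (-R) R ×ˢ Icc (-R) R ×ˢ Icc (-R) R

theorem mem_cube {R : ℤ} {d : Site} : d ∈ cube R ↔
    (-R ≤ d.1 ∧ d.1 ≤ R) ∧ (-R ≤ d.2.1 ∧ d.2.1 ≤ R) ∧ (-R ≤ d.2.2 ∧ d.2.2 ≤ R) := by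
  simp [cube, mem_product]

/-- A closed site with few initially occupied sites near its coordinate lines and planes. -/
def Nice (ω : Site → Fin 3) (R : ℤ) (a : Site) : Prop :=
  ω a = 1 ∧ ∀ d ∈ cube R, d ≠ 0 → ((nb (a + d)).filter fun y => ω y = 0).card + kz d ≤ 2

def Lf (x : Site) : ℤ := x.1 + x.2.1 + x.2.2

theorem local_step (ω : Site → Fin 3) (R : ℤ) (a : Site) (ha : Nice ω R a) (s : ℤ)
    (hs : s = 1 ∨ s = -1) (h : ℤ) (hR : h - s * Lf a ≤ R) (x : Site) (t : ℕ)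
    (hx : x ∈ Occ ω t) (hx0 : ω x ≠ 0)
    (h1 : 0 ≤ s * (x.1 - a.1)) (h2 : 0 ≤ s * (x.2.1 - a.2.1)) (h3 : 0 ≤ s * (x.2.2 - a.2.2))
    (hL : s * Lf x < h) :
    ∃ y : Site, ∃ t' < t, y ∈ Occ ω t' ∧ ω y ≠ 0 ∧ 0 ≤ s * (y.1 - a.1) ∧
      0 ≤ s * (y.2.1 - a.2.1) ∧ 0 ≤ s * (y.2.2 - a.2.2) ∧ s * Lf y = h := by
  classical
  by_contra hcon
  let W : Set Site := {z | 0 ≤ s * (z.1 - a.1) ∧ 0 ≤ s * (z.2.1 - a.2.1) ∧
    0 ≤ s * (z.2.2 - a.2.2) ∧ s * Lf z < h}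
  let T : Set Site := {z | 0 ≤ s * (z.1 - a.1) ∧ 0 ≤ s * (z.2.1 - a.2.1) ∧
    0 ≤ s * (z.2.2 - a.2.2) ∧ s * Lf z = h}
  refine hx0 (protect ω W T ?_ t ?_ t le_rfl x ⟨h1, h2, h3, hL⟩ hx)
  · intro z hz hz1
    obtain ⟨z1, z2, z3, z4⟩ := hz
    have hza : z - a ≠ 0 := by
      intro h0
      rw [sub_eq_zero] at h0
      exact hz1 (h0 ▸ ha.1)
    have hcube : z - a ∈ cube R := by
      rw [mem_cube]
      simp only [Lf, Prod.fst_sub, Prod.snd_sub] at *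
      rcases hs with rfl | rfl <;> omega
    have hn := ha.2 (z - a) hcube hza
    rw [add_sub_cancel] at hn
    have hk : ((nb z).filter fun y => y ∉ W ∪ T).card ≤ kz (z - a) := by
      have hsub : ((nb z).filter fun y => y ∉ W ∪ T) ⊆
          ((if z.1 - a.1 = 0 then {(z.1 - s, z.2.1, z.2.2)} else ∅) ∪
          (if z.2.1 - a.2.1 = 0 then {(z.1, z.2.1 - s, z.2.2)} else ∅)) ∪
          (if z.2.2 - a.2.2 = 0 then {(z.1, z.2.1, z.2.2 - s)} else ∅) := by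
        intro y hy
        rw [mem_filter] at hy
        obtain ⟨hy1, hy2⟩ := hy
        obtain ⟨y1, y2, y3⟩ := y
        simp only [W, T, Set.mem_union, Set.mem_ofPred_eq, Lf] at hy2 z4
        simp only [nb, mem_insert, mem_singleton, Prod.mk.injEq] at hy1
        simp only [mem_union, mem_ite, mem_singleton, notMem_empty, imp_false, not_not,
          Prod.mk.injEq]
        clear hn hcube hza hcon hR h1 h2 h3 hL hx0 hz1
        rcases hs with rfl | rfl <;>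
          rcases hy1 with ⟨e1, e2, e3⟩ | ⟨e1, e2, e3⟩ | ⟨e1, e2, e3⟩ | ⟨e1, e2, e3⟩ |
            ⟨e1, e2, e3⟩ | ⟨e1, e2, e3⟩ <;> omega
      refine (card_le_card hsub).trans ?_
      refine (card_union_le _ _).trans ?_
      unfold kz
      refine add_le_add ((card_union_le _ _).trans (add_le_add ?_ ?_)) ?_ <;>
        simp only [Prod.fst_sub, Prod.snd_sub] <;> split_ifs <;> simp
    rw [filter_or]
    refine (card_union_le _ _).trans ?_
    have e : ((nb z).filter fun y => ω y = 0).card + kz (z - a) ≤ 2 := by convert hn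
    refine le_trans (add_le_add (le_trans (le_of_eq ?_) hk) le_rfl) (by omega)
    congr
  · intro y hy t' ht' hy'
    by_contra h0
    exact hcon ⟨y, t', ht', hy', h0, hy⟩

/-- The box of side `l` with index `b`. -/
noncomputable def box (l : ℤ) (b : Site) : Finset Site :=
  Ico (l * b.1) (l * b.1 + l) ×ˢ Ico (l * b.2.1) (l * b.2.1 + l) ×ˢ Ico (l * b.2.2) (l * b.2.2 + l)

theorem mem_box {l : ℤ} {b x : Site} : x ∈ box l b ↔
    (l * b.1 ≤ x.1 ∧ x.1 < l * b.1 + l) ∧ (l * b.2.1 ≤ x.2.1 ∧ x.2.1 < l * b.2.1 + l) ∧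
      (l * b.2.2 ≤ x.2.2 ∧ x.2.2 < l * b.2.2 + l) := by
  simp [box, mem_product]

theorem exists_box {l : ℤ} (hl : 0 < l) (x : Site) : ∃ b, x ∈ box l b :=
  ⟨(x.1 / l, x.2.1 / l, x.2.2 / l), mem_box.2
    ⟨⟨Int.mul_ediv_self_le hl.ne', Int.lt_mul_ediv_self_add hl⟩,
     ⟨Int.mul_ediv_self_le hl.ne', Int.lt_mul_ediv_self_add hl⟩,
     ⟨Int.mul_ediv_self_le hl.ne', Int.lt_mul_ediv_self_add hl⟩⟩⟩

def Good (ω : Site → Fin 3) (l : ℤ) (b : Site) : Prop := ∃ a ∈ box l b, Nice ω (9 * l) a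

def Noise (ω : Site → Fin 3) (l : ℤ) (b : Site) : Prop :=
  ¬ Good ω l (b - (1, 1, 1)) ∨ ¬ Good ω l (b + (1, 1, 1))

/-- Boxes within sup-distance `10`. -/
noncomputable def bnbr (b : Site) : Finset Site :=
  Icc (b.1 - 10) (b.1 + 10) ×ˢ Icc (b.2.1 - 10) (b.2.1 + 10) ×ˢ Icc (b.2.2 - 10) (b.2.2 + 10)

theorem mem_bnbr {b u : Site} : u ∈ bnbr b ↔
    (b.1 - 10 ≤ u.1 ∧ u.1 ≤ b.1 + 10) ∧ (b.2.1 - 10 ≤ u.2.1 ∧ u.2.1 ≤ b.2.1 + 10) ∧
      (b.2.2 - 10 ≤ u.2.2 ∧ u.2.2 ≤ b.2.2 + 10) := by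
  simp [bnbr, mem_product]

theorem card_bnbr (b : Site) : (bnbr b).card = 9261 := by
  have h : ∀ m : ℤ, (Icc (m - 10) (m + 10)).card = 21 := by
    intro m
    rw [Int.card_Icc]
    have : m + 10 + 1 - (m - 10) = 21 := by ring
    rw [this]; rfl
  simp only [bnbr, card_product, h]

/-- The times at which a box contains a newly occupied site. -/
def dirtyT (ω : Site → Fin 3) (l : ℤ) (b : Site) : Set ℕ :=
  {t | ∃ x ∈ box l b, x ∈ Occ ω t ∧ ω x ≠ 0}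

theorem box_step (ω : Site → Fin 3) (l : ℤ) (hl : 0 < l) (s : ℤ) (hs : s = 1 ∨ s = -1)
    (b : Site) (hb : (dirtyT ω l b).Nonempty) (hg : Good ω l (b - (s, s, s))) :
    ∃ u ∈ bnbr b, (dirtyT ω l u).Nonempty ∧ sInf (dirtyT ω l u) < sInf (dirtyT ω l b) ∧
      s * Lf b + 1 ≤ s * Lf u := by
  obtain ⟨x, hxb, hx, hx0⟩ := Nat.sInf_mem hb
  obtain ⟨a, hab, ha⟩ := hg
  rw [mem_box] at hxb hab
  simp only [Prod.fst_sub, Prod.snd_sub] at hab
  obtain ⟨⟨x1, x1'⟩, ⟨x2, x2'⟩, x3, x3'⟩ := hxb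
  obtain ⟨⟨a1, a1'⟩, ⟨a2, a2'⟩, a3, a3'⟩ := hab
  obtain ⟨y, t', ht', hy, hy0, y1, y2, y3, y4⟩ := local_step ω (9 * l) a ha s hs
    (s * Lf x + 3 * l) (by unfold Lf; rcases hs with rfl | rfl <;> linarith) x _ hx hx0
    (by rcases hs with rfl | rfl <;> linarith) (by rcases hs with rfl | rfl <;> linarith)
    (by rcases hs with rfl | rfl <;> linarith) (by linarith)
  obtain ⟨u, hu⟩ := exists_box hl y
  have hmem : t' ∈ dirtyT ω l u := ⟨y, hu, hy, hy0⟩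
  refine ⟨u, ?_, ⟨t', hmem⟩, (Nat.sInf_le hmem).trans_lt ht', ?_⟩
  · rw [mem_box] at hu
    obtain ⟨⟨u1, u1'⟩, ⟨u2, u2'⟩, u3, u3'⟩ := hu
    have key : ∀ m n : ℤ, l * m < l * (n + 1) → m ≤ n := fun m n h =>
      Int.le_of_lt_add_one (lt_of_mul_lt_mul_left h hl.le)
    unfold Lf at y4
    rw [mem_bnbr]
    rcases hs with rfl | rfl <;>
      refine ⟨⟨key _ _ ?_, key _ _ ?_⟩, ⟨key _ _ ?_, key _ _ ?_⟩, key _ _ ?_, key _ _ ?_⟩ <;>
      linarith
  · rw [mem_box] at hu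
    obtain ⟨⟨u1, u1'⟩, ⟨u2, u2'⟩, u3, u3'⟩ := hu
    have key : ∀ m n : ℤ, l * m < l * n → m + 1 ≤ n := fun m n h =>
      Int.add_one_le_of_lt (lt_of_mul_lt_mul_left h hl.le)
    unfold Lf at y4 ⊢
    rcases hs with rfl | rfl <;> apply key <;> linarith

open Classical in
theorem contour (ω : Site → Fin 3) (l : ℤ) (hl : 0 < l) (b : Site)
    (hb : (dirtyT ω l b).Nonempty) :
    ∃ n, ∃ S ∈ fam bnbr n b, n + 62 ≤ 62 * (S.filter (Noise ω l)).card := by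
  obtain ⟨n, S, w, e⟩ := toom bnbr (fun a b h => by rw [mem_bnbr] at h ⊢; omega) Lf 30
    (by norm_num) (fun a b h => by rw [mem_bnbr] at h; unfold Lf; omega) (Noise ω l)
    (fun b => (dirtyT ω l b).Nonempty) (fun b => sInf (dirtyT ω l b))
    (fun v hv hN => by
      have hg : Good ω l (v - (1, 1, 1)) := by
        by_contra h; exact hN (Or.inl h)
      simpa using box_step ω l hl 1 (Or.inl rfl) v hv hg)
    (fun v hv hN => by
      have hg : Good ω l (v - (-1, -1, -1)) := by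
        by_contra h
        refine hN (Or.inr ?_)
        convert h using 2
        ext <;> simp
      obtain ⟨u, h1, h2, h3, h4⟩ := box_step ω l hl (-1) (Or.inr rfl) v hv hg
      exact ⟨u, h1, h2, h3, by linarith⟩) b hb
  refine ⟨n, S, w.mem_fam, ?_⟩
  have : (n : ℤ) + 62 ≤ 62 * ((S.filter (Noise ω l)).card : ℤ) := by linarith
  exact_mod_cast this

end Pool.Agent.Lib.MP_0d8a84_pr
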