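import Mathlib
import Pool.Agent.Lib.MP_0d8a84_pr.Local

/-!
The probabilistic part: bad boxes are rare, and the Peierls sum.
-/

set_option autoImplicit false

namespace Pool.Agent.Lib.MP_0d8a84_pr

open Finset MeasureTheory ProbabilityTheory

/-- The product measure on configurations. -/
noncomputable abbrev PP (μ : Measure (Fin 3)) : Measure (Site → Fin 3) :=
  Measure.infinitePi (fun _ : Site => μ)

/-- The event `A` depends only on the sites in `S`. -/
def Dep (A : Set (Site → Fin 3)) (S : Finset Site) : Prop :=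
  ∀ ω ω' : Site → Fin 3, (∀ x ∈ S, ω x = ω' x) → ω ∈ A → ω' ∈ A

theorem Dep.eq_preimage {A : Set (Site → Fin 3)} {S : Finset Site} (h : Dep A S) :
    A = (fun (ω : Site → Fin 3) (i : S) => ω i) ⁻¹'
      ((fun (ω : Site → Fin 3) (i : S) => ω i) '' A) := by
  ext ω
  constructor
  · exact fun hω => ⟨ω, hω, rfl⟩
  · rintro ⟨ω', hω', e⟩
    exact h ω' ω (fun x hx => congrFun e ⟨x, hx⟩) hω'

variable (μ : Measure (Fin 3)) [IsProbabilityMeasure μ]

theorem meas_inter_of_dep {A B : Set (Site → Fin 3)} {S T : Finset Site} (hA : Dep A S)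
    (hB : Dep B T) (hST : Disjoint S T) :
    (PP μ).real (A ∩ B) = (PP μ).real A * (PP μ).real B := by
  have hi : iIndepFun (fun (i : Site) (ω : Site → Fin 3) => ω i) (PP μ) :=
    iIndepFun_infinitePi (X := fun _ x => x) (fun _ => measurable_id)
  have h := hi.indepFun_finset S T hST (fun i => measurable_pi_apply i)
  have e : PP μ (A ∩ B) = PP μ A * PP μ B := by
    rw [hA.eq_preimage, hB.eq_preimage]
    exact h.measure_inter_preimage_eq_mul _ _ (Set.toFinite _).measurableSet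
      (Set.toFinite _).measurableSet
  simp only [Measure.real, e, ENNReal.toReal_mul]

theorem meas_forall_le (A : Site → Set (Site → Fin 3)) (Reg : Site → Finset Site)
    (hdep : ∀ b, Dep (A b) (Reg b)) (δ : ℝ) (hδ : ∀ b, (PP μ).real (A b) ≤ δ)
    (T : Finset Site) (hT : ∀ b ∈ T, ∀ b' ∈ T, b ≠ b' → Disjoint (Reg b) (Reg b')) :
    (PP μ).real {ω | ∀ b ∈ T, ω ∈ A b} ≤ δ ^ T.card := by
  classical
  induction T using Finset.induction_on with
  | empty => simp
  | insert a T ha ih =>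
    have e : {ω | ∀ b ∈ insert a T, ω ∈ A b} = A a ∩ {ω | ∀ b ∈ T, ω ∈ A b} := by
      ext ω; simp
    have hd : Dep {ω | ∀ b ∈ T, ω ∈ A b} (T.biUnion Reg) := by
      intro ω ω' h hω b hb
      exact hdep b ω ω' (fun x hx => h x (mem_biUnion.2 ⟨b, hb, hx⟩)) (hω b hb)
    have hdisj : Disjoint (Reg a) (T.biUnion Reg) := by
      rw [disjoint_biUnion_right]
      intro b hb
      exact hT a (mem_insert_self _ _) b (mem_insert_of_mem hb) (fun h => ha (h ▸ hb))
    rw [e, meas_inter_of_dep μ (hdep a) hd hdisj, card_insert_of_notMem ha, pow_succ']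
    have h0 : 0 ≤ δ := measureReal_nonneg.trans (hδ a)
    exact mul_le_mul (hδ a) (ih fun b hb b' hb' =>
      hT b (mem_insert_of_mem hb) b' (mem_insert_of_mem hb')) measureReal_nonneg h0

theorem cyl1 (a : Site) (T : Finset Site) :
    (PP μ).real {ω | ω a = 1 ∧ ∀ y ∈ T, ω y = 0} ≤ μ.real {1} * μ.real {0} ^ T.card := by
  classical
  by_cases ha : a ∈ T
  · have : {ω : Site → Fin 3 | ω a = 1 ∧ ∀ y ∈ T, ω y = 0} = ∅ := by
      ext ω
      simp only [Set.mem_ofPred_eq, Set.mem_empty_iff_false, iff_false, not_and]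
      intro h1 h2
      rw [h2 a ha] at h1
      exact absurd h1 (by decide)
    rw [this, measureReal_empty]
    positivity
  · have e : {ω : Site → Fin 3 | ω a = 1 ∧ ∀ y ∈ T, ω y = 0} =
        Set.pi ((insert a T : Finset Site) : Set Site)
          (fun i => if i = a then ({1} : Set (Fin 3)) else {0}) := by
      ext ω
      simp only [Set.mem_ofPred_eq, Set.mem_pi, coe_insert, Set.mem_insert_iff, mem_coe,
        forall_eq_or_imp, if_true, Set.mem_singleton_iff]
      refine and_congr_right fun _ => forall₂_congr fun y hy => ?_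
      rw [if_neg (fun h : y = a => ha (h ▸ hy))]
      simp
    rw [e, Measure.real, PP, Measure.infinitePi_pi _ (fun i _ => (Set.toFinite _).measurableSet),
      prod_insert ha, if_pos rfl, ENNReal.toReal_mul, ENNReal.toReal_prod]
    apply le_of_eq
    congr 1
    rw [← prod_const]
    refine prod_congr rfl fun y hy => ?_
    rw [if_neg (fun h : y = a => ha (h ▸ hy))]
    rfl

theorem cyl2 (B : Finset Site) :
    (PP μ).real {ω | ∀ x ∈ B, ω x ≠ 1} = (1 - μ.real {1}) ^ B.card := by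
  have e : {ω : Site → Fin 3 | ∀ x ∈ B, ω x ≠ 1} =
      Set.pi (B : Set Site) (fun _ => ({1} : Set (Fin 3))ᶜ) := by
    ext ω; simp
  rw [e, Measure.real, PP, Measure.infinitePi_pi _ (fun i _ => (Set.toFinite _).measurableSet),
    prod_const, ENNReal.toReal_pow, ← probReal_compl_eq_one_sub (Set.toFinite _).measurableSet]
  rfl

theorem sum_cube (p : ℝ) (R : ℕ) :
    ∑ d ∈ (cube R).erase 0, p ^ (3 - kz d) = (1 + 2 * R * p) ^ 3 - 1 := by
  let g : ℤ → ℝ := fun m => if m = 0 then 1 else p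
  have h1 : ∀ d : Site, p ^ (3 - kz d) = g d.1 * (g d.2.1 * g d.2.2) := by
    intro d
    simp only [g, kz]
    split_ifs <;> norm_num <;> ring
  have h2 : ∑ m ∈ Icc (-(R : ℤ)) R, g m = 1 + 2 * R * p := by
    have h0 : (0 : ℤ) ∈ Icc (-(R : ℤ)) R := by simp
    rw [← add_sum_erase _ _ h0]
    have : ∑ m ∈ (Icc (-(R : ℤ)) R).erase 0, g m = ∑ _m ∈ (Icc (-(R : ℤ)) R).erase 0, p :=
      sum_congr rfl fun m hm => if_neg (ne_of_mem_erase hm)
    rw [this, sum_const, card_erase_of_mem h0, Int.card_Icc]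
    have : ((R : ℤ) + 1 - -(R : ℤ)).toNat - 1 = 2 * R := by omega
    rw [this]
    simp [g]
  have h0 : (0 : Site) ∈ cube R := by simp [mem_cube]
  have h3 : ∑ d ∈ cube R, p ^ (3 - kz d) = (1 + 2 * R * p) ^ 3 := by
    simp only [h1, cube, sum_product, ← mul_sum, ← sum_mul, h2]
    ring
  rw [← add_sum_erase _ _ h0] at h3
  have : kz 0 = 3 := by simp [kz]
  rw [this] at h3
  simp only [Nat.sub_self, pow_zero] at h3
  linarith

theorem notNice (a : Site) (R : ℕ) :
    (PP μ).real {ω | ω a = 1 ∧ ¬ Nice ω R a} ≤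
      64 * μ.real {1} * ((1 + 2 * R * μ.real {0}) ^ 3 - 1) := by
  classical
  have hsub : {ω : Site → Fin 3 | ω a = 1 ∧ ¬ Nice ω R a} ⊆
      ⋃ d ∈ (cube R).erase 0, ⋃ T ∈ (nb (a + d)).powersetCard (3 - kz d),
        {ω | ω a = 1 ∧ ∀ y ∈ T, ω y = 0} := by
    rintro ω ⟨h1, h2⟩
    unfold Nice at h2
    push Not at h2
    obtain ⟨d, hd, hd0, h⟩ := h2 h1
    obtain ⟨T, hT, hc⟩ := exists_subset_card_eq
      (show 3 - kz d ≤ ((nb (a + d)).filter fun y => ω y = 0).card by omega)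
    simp only [Set.mem_iUnion]
    exact ⟨d, mem_erase.2 ⟨hd0, hd⟩, T,
      mem_powersetCard.2 ⟨hT.trans (filter_subset _ _), hc⟩, h1,
      fun y hy => (mem_filter.1 (hT hy)).2⟩
  refine (measureReal_mono hsub (measure_ne_top _ _)).trans
    ((measureReal_biUnion_finset_le _ _).trans ?_)
  rw [← sum_cube, mul_sum]
  refine sum_le_sum fun d _ => (measureReal_biUnion_finset_le _ _).trans ?_
  have hc : ((nb (a + d)).powersetCard (3 - kz d)).card ≤ 64 := by
    refine (card_le_card (fun T hT => mem_powerset.2 (mem_powersetCard.1 hT).1)).trans ?_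
    rw [card_powerset]
    exact Nat.pow_le_pow_right (by norm_num) (card_nb_le _)
  calc ∑ T ∈ (nb (a + d)).powersetCard (3 - kz d),
        (PP μ).real {ω | ω a = 1 ∧ ∀ y ∈ T, ω y = 0}
      ≤ ∑ _T ∈ (nb (a + d)).powersetCard (3 - kz d), μ.real {1} * μ.real {0} ^ (3 - kz d) := by
        refine sum_le_sum fun T hT => ?_
        rw [← (mem_powersetCard.1 hT).2]
        exact cyl1 μ a T
    _ = ((nb (a + d)).powersetCard (3 - kz d)).card * (μ.real {1} * μ.real {0} ^ (3 - kz d)) := by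
        rw [sum_const, nsmul_eq_mul]
    _ ≤ 64 * (μ.real {1} * μ.real {0} ^ (3 - kz d)) := by
        gcongr
        exact_mod_cast hc
    _ = _ := by ring

theorem card_box (l : ℕ) (b : Site) : (box l b).card = l ^ 3 := by
  have h : ∀ m : ℤ, (Ico m (m + l)).card = l := by
    intro m
    rw [Int.card_Ico]
    omega
  simp only [box, card_product, h]
  ring

theorem notGood (l : ℕ) (b : Site) :
    (PP μ).real {ω | ¬ Good ω l b} ≤ (1 - μ.real {1}) ^ (l ^ 3) +
      l ^ 3 * (64 * μ.real {1} * ((1 + 18 * l * μ.real {0}) ^ 3 - 1)) := by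
  have hsub : {ω : Site → Fin 3 | ¬ Good ω l b} ⊆ {ω | ∀ x ∈ box l b, ω x ≠ 1} ∪
      ⋃ a ∈ box l b, {ω | ω a = 1 ∧ ¬ Nice ω ((9 * l : ℕ) : ℤ) a} := by
    intro ω hω
    by_cases h : ∀ x ∈ box l b, ω x ≠ 1
    · exact Or.inl h
    · push Not at h
      obtain ⟨a, ha, h1⟩ := h
      right
      simp only [Set.mem_iUnion]
      exact ⟨a, ha, h1, fun hn => hω ⟨a, ha, by push_cast at hn; exact hn⟩⟩
  refine (measureReal_mono hsub (measure_ne_top _ _)).trans ((measureReal_union_le _ _).trans ?_)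
  rw [cyl2, card_box]
  gcongr
  refine (measureReal_biUnion_finset_le _ _).trans ?_
  refine (sum_le_sum fun a _ => notNice μ a (9 * l)).trans ?_
  rw [sum_const, card_box, nsmul_eq_mul]
  apply le_of_eq
  push_cast
  ring

theorem noise_le (l : ℕ) (b : Site) :
    (PP μ).real {ω | Noise ω l b} ≤ 2 * ((1 - μ.real {1}) ^ (l ^ 3) +
      l ^ 3 * (64 * μ.real {1} * ((1 + 18 * l * μ.real {0}) ^ 3 - 1))) := by
  have e : {ω : Site → Fin 3 | Noise ω l b} =
      {ω | ¬ Good ω l (b - (1, 1, 1))} ∪ {ω | ¬ Good ω l (b + (1, 1, 1))} := rfl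
  rw [e]
  refine (measureReal_union_le _ _).trans ?_
  have h1 := notGood μ l (b - (1, 1, 1))
  have h2 := notGood μ l (b + (1, 1, 1))
  linarith

/-- The region on which the noise event of a box depends. -/
noncomputable def reg (l : ℤ) (b : Site) : Finset Site :=
  Ico (l * b.1 - 11 * l) (l * b.1 + 12 * l) ×ˢ Ico (l * b.2.1 - 11 * l) (l * b.2.1 + 12 * l) ×ˢ
    Ico (l * b.2.2 - 11 * l) (l * b.2.2 + 12 * l)

theorem mem_reg {l : ℤ} {b x : Site} : x ∈ reg l b ↔
    (l * b.1 - 11 * l ≤ x.1 ∧ x.1 < l * b.1 + 12 * l) ∧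
      (l * b.2.1 - 11 * l ≤ x.2.1 ∧ x.2.1 < l * b.2.1 + 12 * l) ∧
      (l * b.2.2 - 11 * l ≤ x.2.2 ∧ x.2.2 < l * b.2.2 + 12 * l) := by
  simp [reg, mem_product]

theorem nice_congr {ω ω' : Site → Fin 3} {R : ℤ} {a : Site} (h0 : ω a = ω' a)
    (h : ∀ d ∈ cube R, ∀ y ∈ nb (a + d), ω y = ω' y) (hn : Nice ω R a) : Nice ω' R a := by
  refine ⟨h0 ▸ hn.1, fun d hd hd0 => ?_⟩
  have := hn.2 d hd hd0
  rwa [filter_congr (fun y hy => by rw [h d hd y hy])] at this

theorem good_congr {ω ω' : Site → Fin 3} {l : ℤ} (_hl : 0 < l) {b : Site} (s : ℤ)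
    (hs : s = 1 ∨ s = -1) (h : ∀ x ∈ reg l b, ω x = ω' x) (hg : Good ω l (b + (s, s, s))) :
    Good ω' l (b + (s, s, s)) := by
  obtain ⟨a, ha, hn⟩ := hg
  refine ⟨a, ha, nice_congr (h a ?_) (fun d hd y hy => h y ?_) hn⟩
  · rw [mem_box] at ha
    simp only [Prod.fst_add, Prod.snd_add, mul_add] at ha
    rw [mem_reg]
    rcases hs with rfl | rfl <;> omega
  · rw [mem_box] at ha
    rw [mem_cube] at hd
    obtain ⟨y1, y2, y3⟩ := y
    simp only [nb, mem_insert, mem_singleton, Prod.mk.injEq, Prod.fst_add, Prod.snd_add] at hy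
    simp only [Prod.fst_add, Prod.snd_add, mul_add] at ha
    rw [mem_reg]
    simp only
    rcases hs with rfl | rfl <;>
      rcases hy with ⟨e1, e2, e3⟩ | ⟨e1, e2, e3⟩ | ⟨e1, e2, e3⟩ | ⟨e1, e2, e3⟩ |
        ⟨e1, e2, e3⟩ | ⟨e1, e2, e3⟩ <;> omega

theorem dep_noise (l : ℤ) (hl : 0 < l) (b : Site) : Dep {ω | Noise ω l b} (reg l b) := by
  intro ω ω' h hω
  have e : b - (1, 1, 1) = b + (-1, -1, -1) := by ext <;> simp [sub_eq_add_neg]
  rcases hω with hω | hω
  · left
    rw [e] at hω ⊢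
    exact fun hg => hω (good_congr hl (-1) (Or.inr rfl) (fun x hx => (h x hx).symm) hg)
  · right
    exact fun hg => hω (good_congr hl 1 (Or.inl rfl) (fun x hx => (h x hx).symm) hg)

/-- The colour of a box. -/
def colour (b : Site) : ZMod 23 × ZMod 23 × ZMod 23 := (b.1, b.2.1, b.2.2)

theorem disjoint_reg (l : ℤ) (hl : 0 < l) (b b' : Site) (hc : colour b = colour b')
    (hne : b ≠ b') : Disjoint (reg l b) (reg l b') := by
  rw [disjoint_left]
  intro x hx hx'
  rw [mem_reg] at hx hx'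
  have key : ∀ m n t : ℤ, (m : ZMod 23) = n → l * m - 11 * l ≤ t → t < l * m + 12 * l →
      l * n - 11 * l ≤ t → t < l * n + 12 * l → m = n := by
    intro m n t hmn h1 h2 h3 h4
    rw [ZMod.intCast_eq_intCast_iff_dvd_sub] at hmn
    have k1 : m < n + 23 := lt_of_mul_lt_mul_left (by linarith) hl.le
    have k2 : n < m + 23 := lt_of_mul_lt_mul_left (by linarith) hl.le
    push_cast at hmn
    omega
  simp only [colour, Prod.mk.injEq] at hc
  apply hne
  ext
  · exact key _ _ _ hc.1 hx.1.1 hx.1.2 hx'.1.1 hx'.1.2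
  · exact key _ _ _ hc.2.1 hx.2.1.1 hx.2.1.2 hx'.2.1.1 hx'.2.1.2
  · exact key _ _ _ hc.2.2 hx.2.2.1 hx.2.2.2 hx'.2.2.1 hx'.2.2.2

theorem exists_mono_subset (A : Finset Site) : ∃ T ⊆ A, A.card ≤ 12167 * T.card ∧
    ∀ b ∈ T, ∀ b' ∈ T, colour b = colour b' := by
  classical
  obtain ⟨c, -, hc⟩ := exists_max_image (univ : Finset (ZMod 23 × ZMod 23 × ZMod 23))
    (fun c => (A.filter fun b => colour b = c).card) univ_nonempty
  refine ⟨A.filter fun b => colour b = c, filter_subset _ _, ?_, ?_⟩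
  · have := card_le_mul_card_image_of_maps_to (s := A)
      (t := (univ : Finset (ZMod 23 × ZMod 23 × ZMod 23))) (f := colour)
      (fun _ _ => mem_univ _) _ hc
    rw [card_univ] at this
    simp only [Fintype.card_prod, ZMod.card] at this
    omega
  · intro b hb b' hb'
    rw [(mem_filter.1 hb).2, (mem_filter.1 hb').2]

/-- A large monochromatic set of boxes. -/
def Big (K n : ℕ) (T : Finset Site) : Prop :=
  n + 1 ≤ K * T.card ∧ ∀ b ∈ T, ∀ b' ∈ T, colour b = colour b'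

theorem dirty_bound (l : ℤ) (hl : 0 < l) (η : ℝ) (hη0 : 0 ≤ η) (hη : 37044 * η ≤ 1)
    (K : ℕ) (hK : K = 62 * 12167)
    (hδ : ∀ b, (PP μ).real {ω | Noise ω l b} ≤ η ^ K) (b0 : Site) :
    PP μ {ω | (dirtyT ω l b0).Nonempty} ≤ ENNReal.ofReal (4 * η) := by
  classical
  let E : ℕ → Set (Site → Fin 3) := fun n => ⋃ S ∈ fam bnbr n b0,
    ⋃ T ∈ S.powerset.filter (Big K n), {ω | ∀ b ∈ T, ω ∈ {ω | Noise ω l b}}
  have hsub : {ω | (dirtyT ω l b0).Nonempty} ⊆ ⋃ n, E n := by
    intro ω hω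
    obtain ⟨n, S, hS, hn⟩ := contour ω l hl b0 hω
    obtain ⟨T, hT, hc, hcol⟩ := exists_mono_subset (S.filter (Noise ω l))
    simp only [E, Set.mem_iUnion]
    refine ⟨n, S, hS, T, mem_filter.2 ⟨mem_powerset.2 (hT.trans (filter_subset _ _)), ?_, hcol⟩,
      fun b hb => (mem_filter.1 (hT hb)).2⟩
    rw [hK]
    omega
  have hη1 : η ≤ 1 := by linarith
  have hE : ∀ n, (PP μ).real (E n) ≤ 2 * η * (1 / 2) ^ n := by
    intro n
    refine (measureReal_biUnion_finset_le _ _).trans ?_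
    have h1 : ∀ S ∈ fam bnbr n b0, (PP μ).real (⋃ T ∈ S.powerset.filter (Big K n),
          {ω | ∀ b ∈ T, ω ∈ {ω | Noise ω l b}}) ≤ 2 ^ (n + 1) * η ^ (n + 1) := by
      intro S hS
      refine (measureReal_biUnion_finset_le _ _).trans ?_
      refine (sum_le_card_nsmul _ _ (η ^ (n + 1)) fun T hT => ?_).trans ?_
      · obtain ⟨-, h1, h2⟩ := mem_filter.1 hT
        refine (meas_forall_le μ (fun b => {ω | Noise ω l b}) (reg l) (dep_noise l hl) _ hδ T
          fun b hb b' hb' hne => disjoint_reg l hl b b' (h2 b hb b' hb') hne).trans ?_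
        rw [← pow_mul]
        exact pow_le_pow_of_le_one hη0 hη1 h1
      · rw [nsmul_eq_mul]
        gcongr
        have : (S.powerset.filter (Big K n)).card ≤ 2 ^ (n + 1) := by
          refine (card_filter_le _ _).trans ?_
          rw [card_powerset]
          exact Nat.pow_le_pow_right (by norm_num) (card_le_of_mem_fam _ _ _ _ hS)
        exact_mod_cast this
    refine (sum_le_card_nsmul _ _ _ h1).trans ?_
    rw [nsmul_eq_mul]
    have h2 : ((fam bnbr n b0).card : ℝ) ≤ 9261 ^ n := by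
      exact_mod_cast card_fam_le bnbr 9261 (fun a => (card_bnbr a).le) n b0
    calc ((fam bnbr n b0).card : ℝ) * (2 ^ (n + 1) * η ^ (n + 1))
        ≤ 9261 ^ n * (2 ^ (n + 1) * η ^ (n + 1)) := by gcongr
      _ = 2 * η * (9261 * 2 * η) ^ n := by rw [mul_pow, mul_pow]; ring
      _ ≤ 2 * η * (1 / 2) ^ n := by gcongr; linarith
  refine (measure_mono hsub).trans ((measure_iUnion_le _).trans ?_)
  have hsum : Summable fun n : ℕ => 2 * η * (1 / 2 : ℝ) ^ n :=
    summable_geometric_two.mul_left _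
  calc ∑' n, PP μ (E n) ≤ ∑' n, ENNReal.ofReal (2 * η * (1 / 2) ^ n) := by
        refine ENNReal.tsum_le_tsum fun n => ?_
        rw [← ofReal_measureReal (measure_ne_top _ _)]
        exact ENNReal.ofReal_le_ofReal (hE n)
    _ = ENNReal.ofReal (∑' n : ℕ, 2 * η * (1 / 2) ^ n) :=
        (ENNReal.ofReal_tsum_of_nonneg (fun n => by positivity) hsum).symm
    _ = ENNReal.ofReal (4 * η) := by
        rw [tsum_mul_left, tsum_geometric_two]
        congr 1
        ring

end Pool.Agent.Lib.MP_0d8a84_pr
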