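import Mathlib
import Pool.Agent.Lib.MP_0d8a84_pr.Prob

/-!
The final density tends to zero as soon as `p, q → 0` and `p ^ 3 / q → 0`.
-/

set_option autoImplicit false

namespace Pool.Agent.Lib.MP_0d8a84_pr

open MeasureTheory ProbabilityTheory Filter Topology

theorem exists_scale (q M : ℝ) (hq : 0 < q) (hq1 : q ≤ 1) (hM : 1 ≤ M) :
    ∃ l : ℕ, 0 < l ∧ M ≤ q * l ^ 3 ∧ q * l ^ 3 ≤ 8 * M := by
  classical
  have hex : ∃ l : ℕ, M ≤ q * l ^ 3 := by
    obtain ⟨l, hl⟩ := exists_nat_ge (M / q)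
    have h1 : 1 ≤ M / q := by rw [le_div_iff₀ hq]; linarith
    have h2 : (1 : ℝ) ≤ l := h1.trans hl
    refine ⟨l, ?_⟩
    rw [div_le_iff₀ hq] at hl
    have : (l : ℝ) ≤ l ^ 3 := le_self_pow₀ h2 (by norm_num)
    nlinarith
  have h0 : 0 < Nat.find hex := by
    rw [Nat.find_pos]
    simp only [Nat.cast_zero, ne_eq, OfNat.ofNat_ne_zero, not_false_eq_true, zero_pow, mul_zero,
      not_le]
    linarith
  refine ⟨Nat.find hex, h0, Nat.find_spec hex, ?_⟩
  obtain ⟨m, hm⟩ : ∃ m, Nat.find hex = m + 1 := ⟨Nat.find hex - 1, by omega⟩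
  have hlt : ¬ M ≤ q * (m : ℝ) ^ 3 := Nat.find_min hex (by omega)
  rw [hm]
  push_cast
  rcases Nat.eq_zero_or_pos m with rfl | hpos
  · simp only [Nat.cast_zero, zero_add, one_pow, mul_one]
    linarith
  · have h1 : (1 : ℝ) ≤ m := by exact_mod_cast hpos
    have h2 : ((m : ℝ) + 1) ^ 3 ≤ (2 * m) ^ 3 := by gcongr; linarith
    have h3 : q * ((m : ℝ) + 1) ^ 3 ≤ q * (2 * m) ^ 3 := by gcongr
    push Not at hlt
    nlinarith

theorem tendsto_density (p q : ℕ → ℝ) (hp0 : ∀ n, 0 < p n) (hq0 : ∀ n, 0 < q n)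
    (hp : Tendsto p atTop (𝓝 0)) (hq : Tendsto q atTop (𝓝 0))
    (hpq : Tendsto (fun n => p n ^ 3 / q n) atTop (𝓝 0))
    (μ : ℕ → Measure (Fin 3)) [∀ n, IsProbabilityMeasure (μ n)]
    (h0 : ∀ n, μ n {0} = ENNReal.ofReal (p n)) (h1 : ∀ n, μ n {1} = ENNReal.ofReal (q n)) :
    Tendsto (fun n => PP (μ n) {ω | ∃ t, (0 : Site) ∈ Occ ω t}) atTop (𝓝 0) := by
  rw [ENNReal.tendsto_nhds_zero]
  intro ε hε
  obtain ⟨e, -, he0, heε⟩ := ENNReal.lt_iff_exists_real_btwn.1 hε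
  rw [ENNReal.ofReal_pos] at he0
  obtain ⟨K, hK⟩ : ∃ K : ℕ, K = 62 * 12167 := ⟨_, rfl⟩
  set η : ℝ := min (e / 8) (1 / 37044) with hη
  have hη0 : 0 < η := lt_min (by linarith) (by norm_num)
  have hη1 : η ≤ e / 8 := min_le_left _ _
  have hη2 : η ≤ 1 / 37044 := min_le_right _ _
  have hδ : 0 < η ^ K / 4 := by positivity
  obtain ⟨M, hM1, hM2⟩ : ∃ M : ℝ, 1 ≤ M ∧ Real.exp (-M) ≤ η ^ K / 4 :=
    ((eventually_ge_atTop 1).and
      (Real.tendsto_exp_neg_atTop_nhds_zero.eventually (ge_mem_nhds hδ))).exists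
  obtain ⟨θ, hθ0, hθ⟩ : ∃ θ : ℝ, 0 < θ ∧ 8 * M * 64 * ((1 + 18 * θ) ^ 3 - 1) ≤ η ^ K / 4 := by
    have hc : Tendsto (fun t : ℝ => 8 * M * 64 * ((1 + 18 * t) ^ 3 - 1)) (𝓝[>] 0) (𝓝 0) := by
      refine tendsto_nhdsWithin_of_tendsto_nhds ?_
      have : Continuous fun t : ℝ => 8 * M * 64 * ((1 + 18 * t) ^ 3 - 1) := by fun_prop
      simpa using this.tendsto 0
    exact ((eventually_mem_nhdsWithin (a := (0 : ℝ)) (s := Set.Ioi 0)).and
      (hc.eventually (ge_mem_nhds hδ))).exists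
  have hθM : 0 < θ ^ 3 / (8 * M) := by positivity
  filter_upwards [hp.eventually (ge_mem_nhds (show 0 < e / 2 by linarith)),
    hq.eventually (ge_mem_nhds (show (0 : ℝ) < 1 by norm_num)),
    hpq.eventually (ge_mem_nhds hθM)] with n hn1 hn2 hn3
  obtain ⟨l, hl0, hl1, hl2⟩ := exists_scale (q n) M (hq0 n) hn2 hM1
  have hpn := hp0 n
  have hqn := hq0 n
  have r0 : (μ n).real {0} = p n := by
    rw [Measure.real, h0, ENNReal.toReal_ofReal hpn.le]
  have r1 : (μ n).real {1} = q n := by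
    rw [Measure.real, h1, ENNReal.toReal_ofReal hqn.le]
  have hlp : l * p n ≤ θ := by
    have : (l * p n) ^ 3 ≤ θ ^ 3 := by
      have e1 : (l * p n) ^ 3 = (q n * l ^ 3) * (p n ^ 3 / q n) := by field_simp
      have e2 : θ ^ 3 = (8 * M) * (θ ^ 3 / (8 * M)) := by field_simp
      rw [e1, e2]
      gcongr
    exact (pow_le_pow_iff_left₀ (by positivity) hθ0.le (by norm_num)).1 this
  have hnoise : ∀ b, (PP (μ n)).real {ω | Noise ω l b} ≤ η ^ K := by
    intro b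
    refine (noise_le (μ n) l b).trans ?_
    rw [r0, r1]
    have k1 : (1 - q n) ^ (l ^ 3) ≤ η ^ K / 4 := by
      refine le_trans ?_ hM2
      calc (1 - q n) ^ (l ^ 3) ≤ Real.exp (-q n) ^ (l ^ 3) := by
            exact pow_le_pow_left₀ (by linarith) (Real.one_sub_le_exp_neg _) _
        _ = Real.exp (-(q n * l ^ 3)) := by
            rw [← Real.exp_nat_mul]
            congr 1
            push_cast
            ring
        _ ≤ Real.exp (-M) := by gcongr
    have k2 : (l : ℝ) ^ 3 * (64 * q n * ((1 + 18 * l * p n) ^ 3 - 1)) ≤ η ^ K / 4 := by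
      refine le_trans ?_ hθ
      have a1 : (1 + 18 * l * p n) ^ 3 - 1 ≤ (1 + 18 * θ) ^ 3 - 1 := by
        gcongr ?_ ^ 3 - 1
        linarith
      have a2 : 0 ≤ (1 + 18 * l * p n) ^ 3 - 1 := by
        have : (1 : ℝ) ≤ (1 + 18 * l * p n) ^ 3 := one_le_pow₀ (by
          have : 0 ≤ 18 * l * p n := by positivity
          linarith)
        linarith
      calc (l : ℝ) ^ 3 * (64 * q n * ((1 + 18 * l * p n) ^ 3 - 1))
          = (q n * l ^ 3) * 64 * ((1 + 18 * l * p n) ^ 3 - 1) := by ring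
        _ ≤ _ := by gcongr
    linarith
  have hl' : (0 : ℤ) < l := by exact_mod_cast hl0
  obtain ⟨b0, hb0⟩ := exists_box hl' (0 : Site)
  have hsub : {ω : Site → Fin 3 | ∃ t, (0 : Site) ∈ Occ ω t} ⊆
      {ω | ω 0 = 0} ∪ {ω | (dirtyT ω l b0).Nonempty} := by
    rintro ω ⟨t, ht⟩
    by_cases h : ω 0 = 0
    · exact Or.inl h
    · exact Or.inr ⟨t, 0, hb0, ht, h⟩
  have hP0 : PP (μ n) {ω | ω 0 = 0} = ENNReal.ofReal (p n) := by
    have e : {ω : Site → Fin 3 | ω 0 = 0} =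
        Set.pi (({0} : Finset Site) : Set Site) (fun _ => ({0} : Set (Fin 3))) := by
      ext ω; simp
    rw [e, PP, Measure.infinitePi_pi _ (fun i _ => (Set.toFinite _).measurableSet),
      Finset.prod_singleton, h0]
  refine (measure_mono hsub).trans ((measure_union_le _ _).trans ?_)
  rw [hP0]
  refine (add_le_add le_rfl (dirty_bound (μ n) l hl' η hη0.le (by linarith) K hK hnoise b0)).trans ?_
  rw [← ENNReal.ofReal_add hpn.le (by positivity)]
  exact (ENNReal.ofReal_le_ofReal (by linarith)).trans heε.le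

theorem tendsto_ratio (α : ℝ) (hα : α < 3) (p q : ℕ → ℝ) (hp0 : ∀ n, 0 < p n)
    (hq0 : ∀ n, 0 < q n) (hp : Tendsto p atTop (𝓝 0))
    (h : Tendsto (fun n => Real.log (q n) / Real.log (p n)) atTop (𝓝 α)) :
    Tendsto (fun n => p n ^ 3 / q n) atTop (𝓝 0) := by
  set β : ℝ := (α + 3) / 2 with hβ
  have h1 : Tendsto (fun n => p n ^ (3 - β)) atTop (𝓝 0) := by
    have := hp.rpow_const (p := 3 - β) (Or.inr (by linarith))
    rwa [Real.zero_rpow (by linarith)] at this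
  refine squeeze_zero' (Eventually.of_forall fun n => by
    have := hp0 n; have := hq0 n; positivity) ?_ h1
  filter_upwards [h.eventually (ge_mem_nhds (show α < β by linarith)),
    hp.eventually (gt_mem_nhds (show (0 : ℝ) < 1 by norm_num))] with n hn1 hn2
  have hlog : Real.log (p n) < 0 := Real.log_neg (hp0 n) hn2
  rw [div_le_iff_of_neg hlog] at hn1
  have hq : p n ^ β ≤ q n := by
    rw [Real.rpow_def_of_pos (hp0 n), ← Real.exp_log (hq0 n)]
    exact Real.exp_le_exp.2 (by linarith)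
  rw [div_le_iff₀ (hq0 n)]
  calc p n ^ 3 = p n ^ (3 - β) * p n ^ β := by
        rw [← Real.rpow_add (hp0 n), sub_add_cancel]
        exact_mod_cast (Real.rpow_natCast (p n) 3).symm
    _ ≤ p n ^ (3 - β) * q n := by
        have := Real.rpow_nonneg (hp0 n).le (3 - β)
        gcongr

end Pool.Agent.Lib.MP_0d8a84_pr
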