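import Mathlib
import Pool.Agent.Lib.MP_0d8a84_pr.Toom

/-!
The two-charge contour lemma when only some of the noise vertices are sources.
-/

set_option autoImplicit false

namespace Pool.Agent.Lib.MP_0d8a84_pr

open Finset

variable {V : Type*} [DecidableEq V]

theorem Wk.reverse {nbr : V → Finset V} (hsym : ∀ a b, b ∈ nbr a → a ∈ nbr b) {a b : V} {n : ℕ}
    {S : Finset V} (h : Wk nbr a b n S) : Wk nbr b a n S := by
  induction h with
  | nil a => exact Wk.nil a
  | @cons a b c n S hab w ih =>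
    have h1 := ih.append (Wk.single (hsym _ _ hab))
    have h2 : S ∪ {b, a} = insert a S := by
      ext x
      simp only [mem_union, mem_insert, mem_singleton]
      constructor
      · rintro (h | rfl | rfl)
        · exact Or.inr h
        · exact Or.inr w.start_mem
        · exact Or.inl rfl
      · rintro (rfl | h)
        · exact Or.inr (Or.inr rfl)
        · exact Or.inl h
    rwa [h2] at h1

theorem goodBlk_add (nbr : V → Finset V) (hsym : ∀ a b, b ∈ nbr a → a ∈ nbr b)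
    (L : V → ℤ) (c : ℤ) (hc0 : 0 ≤ c) (hc : ∀ a b, b ∈ nbr a → L b - L a ≤ c)
    (N : V → Prop) [DecidablePred N] (v u : V) (K : Finset V)
    (h1 : GoodBlk nbr L N (2 * c + 2) K) (hu : u ∈ nbr v) (huK : u ∈ K) (hN : N v)
    (hv : v ∉ K) : GoodBlk nbr L N (2 * c + 2) (insert v K) := by
  have hcard : ∀ S : Finset V, S ⊆ K → ∀ T : Finset V, insert v S ⊆ T →
      (2 * c + 2) * ((S.filter N).card : ℤ) + (2 * c + 2) ≤
        (2 * c + 2) * ((T.filter N).card : ℤ) := by
    intro S hS T hT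
    have h2 : ((insert v S).filter N).card ≤ (T.filter N).card :=
      card_le_card (filter_subset_filter _ hT)
    rw [filter_insert, if_pos hN,
      card_insert_of_notMem (fun h => hv (hS (mem_filter.1 h).1))] at h2
    have h3 : ((S.filter N).card : ℤ) + 1 ≤ (T.filter N).card := by exact_mod_cast h2
    have := mul_le_mul_of_nonneg_left h3 (show 0 ≤ 2 * c + 2 by omega)
    linarith
  intro a ha b hb
  rcases mem_insert.1 ha with rfl | ha' <;> rcases mem_insert.1 hb with rfl | hb'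
  · refine ⟨0, {_}, Wk.nil _, by simp, ?_⟩
    rw [filter_singleton, if_pos hN]
    simp
  · obtain ⟨n, S, w, s, e⟩ := h1 u huK b hb'
    refine ⟨_, _, Wk.cons hu w, insert_subset_insert _ s, ?_⟩
    have h2 := hcard S s _ subset_rfl
    have h3 := hc _ _ hu
    push_cast
    linarith
  · obtain ⟨n, S, w, s, e⟩ := h1 a ha' u huK
    refine ⟨_, _, w.append (Wk.single (hsym _ _ hu)), ?_, ?_⟩
    · intro z hz
      simp only [mem_union, mem_insert, mem_singleton] at hz ⊢
      rcases hz with hz | rfl | rfl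
      · exact Or.inr (s hz)
      · exact Or.inr huK
      · exact Or.inl rfl
    · have h2 := hcard S s (S ∪ {u, b}) (by
        intro z hz
        simp only [mem_union, mem_insert, mem_singleton] at hz ⊢
        tauto)
      have h3 := hc _ _ (hsym _ _ hu)
      push_cast
      linarith
  · obtain ⟨n, S, w, s, e⟩ := h1 a ha' b hb'
    exact ⟨n, S, w, s.trans (subset_insert _ _), e⟩

theorem toom_far (nbr : V → Finset V) (hsym : ∀ a b, b ∈ nbr a → a ∈ nbr b)
    (L : V → ℤ) (c : ℤ) (hc0 : 0 ≤ c) (hc : ∀ a b, b ∈ nbr a → L b - L a ≤ c)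
    (N : V → Prop) [DecidablePred N] (Src D : V → Prop) (τ : V → ℕ)
    (hup : ∀ v, D v → ¬ N v → ∃ u ∈ nbr v, D u ∧ τ u < τ v ∧ L v + 1 ≤ L u)
    (hdn : ∀ v, D v → ¬ N v → ∃ u ∈ nbr v, D u ∧ τ u < τ v ∧ L u + 1 ≤ L v)
    (hpr : ∀ v, D v → ¬ Src v → ∃ u ∈ nbr v, D u ∧ τ u < τ v)
    (v0 : V) (h0 : D v0) :
    ∃ w, Src w ∧ ∃ n S, Wk nbr v0 w n S ∧
      (n : ℤ) + (2 * c + 2) ≤ (2 * c + 2) * ((S.filter N).card : ℤ) := by
  classical
  have hboth : ∀ v, D v → ¬ (N v ∧ Src v) → ∃ u d, (u ∈ nbr v ∧ d ∈ nbr v) ∧ (D u ∧ D d) ∧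
      (τ u < τ v ∧ τ d < τ v) ∧ ((L v + 1 ≤ L u ∧ L d + 1 ≤ L v) ∨ (N v ∧ u = d)) := by
    intro v hD hS
    by_cases hN : N v
    · obtain ⟨u, h1, h2, h3⟩ := hpr v hD fun h => hS ⟨hN, h⟩
      exact ⟨u, u, ⟨h1, h1⟩, ⟨h2, h2⟩, ⟨h3, h3⟩, Or.inr ⟨hN, rfl⟩⟩
    · obtain ⟨u, h1, h2, h3, h4⟩ := hup v hD hN
      obtain ⟨d, k1, k2, k3, k4⟩ := hdn v hD hN
      exact ⟨u, d, ⟨h1, k1⟩, ⟨h2, k2⟩, ⟨h3, k3⟩, Or.inl ⟨h4, k4⟩⟩
  choose! up dn g1 g2 g3 g4 using hboth
  have exF : ∀ t v, τ v = t → D v → ∃ F : Finset V, v ∈ F ∧ (∀ x ∈ F, D x) ∧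
      ∀ x ∈ F, ¬ (N x ∧ Src x) → up x ∈ F ∧ dn x ∈ F := by
    intro t
    induction t using Nat.strong_induction_on with
    | _ t ih =>
      intro v hv hD
      by_cases hN : N v ∧ Src v
      · refine ⟨{v}, mem_singleton_self _, by simpa using hD, fun x hx h => ?_⟩
        rw [mem_singleton] at hx
        subst hx
        exact (h hN).elim
      · obtain ⟨F1, a1, b1, c1⟩ := ih _ (hv ▸ (g3 v hD hN).1) (up v) rfl (g2 v hD hN).1
        obtain ⟨F2, a2, b2, c2⟩ := ih _ (hv ▸ (g3 v hD hN).2) (dn v) rfl (g2 v hD hN).2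
        refine ⟨insert v (F1 ∪ F2), mem_insert_self _ _, ?_, ?_⟩
        · intro x hx
          simp only [mem_insert, mem_union] at hx
          rcases hx with rfl | hx | hx
          exacts [hD, b1 x hx, b2 x hx]
        · intro x hx hNx
          simp only [mem_insert, mem_union] at hx ⊢
          rcases hx with rfl | hx | hx
          · exact ⟨Or.inr (Or.inl a1), Or.inr (Or.inr a2)⟩
          · exact ⟨Or.inr (Or.inl (c1 x hx hNx).1), Or.inr (Or.inl (c1 x hx hNx).2)⟩
          · exact ⟨Or.inr (Or.inr (c2 x hx hNx).1), Or.inr (Or.inr (c2 x hx hNx).2)⟩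
  have key : ∀ F : Finset V, (∀ x ∈ F, D x) →
      (∀ x ∈ F, ¬ (N x ∧ Src x) → up x ∈ F ∧ dn x ∈ F) →
      ∃ P : Set (Finset V),
        (∀ K ∈ P, (GoodBlk nbr L N (2 * c + 2) K ∧ ∃ w ∈ K, Src w) ∧ K ⊆ F) ∧
        (∀ x ∈ F, ∃ K ∈ P, x ∈ K) ∧ ∀ K ∈ P, ∀ K' ∈ P, K = K' ∨ Disjoint K K' := by
    intro F
    induction F using Finset.induction_on_max_value τ with
    | empty => intro _ _; exact ⟨∅, by simp, by simp, by simp⟩
    | insert v s hvs hmax ih =>
      intro hD hcl
      have hDs : ∀ x ∈ s, D x := fun x hx => hD x (mem_insert_of_mem hx)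
      have hcl' : ∀ x ∈ insert v s, ¬ (N x ∧ Src x) → up x ∈ s ∧ dn x ∈ s := by
        intro x hx hNx
        have hτ : τ x ≤ τ v := by
          rcases mem_insert.1 hx with rfl | hx
          · exact le_rfl
          · exact hmax x hx
        obtain ⟨k1, k2⟩ := hcl x hx hNx
        have t1 := (g3 x (hD x hx) hNx).1
        have t2 := (g3 x (hD x hx) hNx).2
        refine ⟨(mem_insert.1 k1).resolve_left ?_, (mem_insert.1 k2).resolve_left ?_⟩
        · intro h; rw [h] at t1; omega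
        · intro h; rw [h] at t2; omega
      obtain ⟨P, p1, p2, p3⟩ := ih hDs fun x hx => hcl' x (mem_insert_of_mem hx)
      have hDv : D v := hD v (mem_insert_self _ _)
      by_cases hN : N v ∧ Src v
      · refine ⟨insert {v} P, ?_, ?_, ?_⟩
        · rintro K (rfl | hK)
          · refine ⟨⟨?_, v, mem_singleton_self _, hN.2⟩, by simp⟩
            intro a ha b hb
            rw [mem_singleton] at ha hb
            subst ha hb
            refine ⟨0, {_}, Wk.nil _, subset_rfl, ?_⟩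
            rw [filter_singleton, if_pos hN.1]
            simp
          · exact ⟨(p1 K hK).1, (p1 K hK).2.trans (subset_insert _ _)⟩
        · intro x hx
          rcases mem_insert.1 hx with rfl | hx
          · exact ⟨{x}, Set.mem_insert _ _, mem_singleton_self _⟩
          · obtain ⟨K, hK, hxK⟩ := p2 x hx
            exact ⟨K, Set.mem_insert_of_mem _ hK, hxK⟩
        · rintro K (rfl | hK) K' (rfl | hK')
          · exact Or.inl rfl
          · exact Or.inr (disjoint_singleton_left.2 fun h => hvs ((p1 K' hK').2 h))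
          · exact Or.inr (disjoint_singleton_right.2 fun h => hvs ((p1 K hK).2 h))
          · exact p3 K hK K' hK'
      · obtain ⟨hu, hd⟩ := hcl' v (mem_insert_self _ _) hN
        obtain ⟨K1, hK1, hu1⟩ := p2 _ hu
        obtain ⟨K2, hK2, hd2⟩ := p2 _ hd
        have hg : GoodBlk nbr L N (2 * c + 2) (insert v (K1 ∪ K2)) := by
          rcases g4 v hDv hN with h | ⟨hNv, h⟩
          · exact goodBlk_merge nbr hsym L c hc0 hc N v (up v) (dn v) K1 K2 (p1 K1 hK1).1.1
              (p1 K2 hK2).1.1 (p3 K1 hK1 K2 hK2) (g1 v hDv hN).1 (g1 v hDv hN).2 hu1 hd2 h.1 h.2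
          · have h12 : K1 = K2 := (p3 K1 hK1 K2 hK2).resolve_right fun hdis =>
              disjoint_left.1 hdis hu1 (h ▸ hd2)
            rw [← h12, union_self]
            exact goodBlk_add nbr hsym L c hc0 hc N v (up v) K1 (p1 K1 hK1).1.1 (g1 v hDv hN).1
              hu1 hNv fun h => hvs ((p1 K1 hK1).2 h)
        have hdisj : ∀ K ∈ P, K ≠ K1 → K ≠ K2 → Disjoint K (insert v (K1 ∪ K2)) := by
          intro K hK n1 n2
          rw [disjoint_insert_right, disjoint_union_right]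
          exact ⟨fun h => hvs ((p1 K hK).2 h), (p3 K hK K1 hK1).resolve_left n1,
            (p3 K hK K2 hK2).resolve_left n2⟩
        refine ⟨insert (insert v (K1 ∪ K2)) {K | K ∈ P ∧ K ≠ K1 ∧ K ≠ K2}, ?_, ?_, ?_⟩
        · rintro K (rfl | hK)
          · obtain ⟨w, hw, hws⟩ := (p1 K1 hK1).1.2
            exact ⟨⟨hg, w, mem_insert_of_mem (mem_union_left _ hw), hws⟩,
              insert_subset_insert _ (union_subset (p1 K1 hK1).2 (p1 K2 hK2).2)⟩
          · exact ⟨(p1 K hK.1).1, (p1 K hK.1).2.trans (subset_insert _ _)⟩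
        · intro x hx
          rcases mem_insert.1 hx with rfl | hx
          · exact ⟨_, Set.mem_insert _ _, mem_insert_self _ _⟩
          · obtain ⟨K, hK, hxK⟩ := p2 x hx
            by_cases e1 : K = K1
            · exact ⟨_, Set.mem_insert _ _, mem_insert_of_mem (mem_union_left _ (e1 ▸ hxK))⟩
            by_cases e2 : K = K2
            · exact ⟨_, Set.mem_insert _ _, mem_insert_of_mem (mem_union_right _ (e2 ▸ hxK))⟩
            exact ⟨K, Set.mem_insert_of_mem _ ⟨hK, e1, e2⟩, hxK⟩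
        · rintro K (rfl | hK) K' (rfl | hK')
          · exact Or.inl rfl
          · exact Or.inr (hdisj K' hK'.1 hK'.2.1 hK'.2.2).symm
          · exact Or.inr (hdisj K hK.1 hK.2.1 hK.2.2)
          · exact p3 K hK.1 K' hK'.1
  obtain ⟨F, f1, f2, f3⟩ := exF _ v0 rfl h0
  obtain ⟨P, p1, p2, -⟩ := key F f2 f3
  obtain ⟨K, hK, hv⟩ := p2 v0 f1
  obtain ⟨hg, w, hw, hws⟩ := (p1 K hK).1
  refine ⟨w, hws, ?_⟩
  rcases le_total (L v0) (L w) with h | h
  · obtain ⟨n, S, k, -, e⟩ := hg v0 hv w hw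
    exact ⟨n, S, k, by linarith⟩
  · obtain ⟨n, S, k, -, e⟩ := hg w hw v0 hv
    exact ⟨n, S, k.reverse hsym, by linarith⟩

end Pool.Agent.Lib.MP_0d8a84_pr
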