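import Mathlib
import Pool.Agent.Lib.MP_0d8a84_pr.Main
import Pool.Agent.Lib.MP_0d8a84_pr.ToomFar

/-!
Long contours: in a sparse region nothing new starts after the first step.
-/

set_option autoImplicit false

namespace Pool.Agent.Lib.MP_0d8a84_pr

open Finset MeasureTheory ProbabilityTheory

/-- The configuration after one step, seen as an initial configuration. -/
def fill (ω : Site → Fin 3) (x : Site) : Fin 3 :=
  if ω x ≠ 1 ∧ 3 ≤ ((nb x).filter fun y => ω y = 0).card then 0 else ω x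

theorem fill_zero {ω : Site → Fin 3} {x : Site} (h : ω x = 0) : fill ω x = 0 := by
  unfold fill; split_ifs
  · rfl
  · exact h

theorem fill_ne_one {ω : Site → Fin 3} {x : Site} : fill ω x ≠ 1 ↔ ω x ≠ 1 := by
  unfold fill; split_ifs with h
  · exact ⟨fun _ => h.1, fun _ => by decide⟩
  · rfl

theorem fill_cases {ω : Site → Fin 3} {x : Site} (h : fill ω x = 0) :
    ω x = 0 ∨ 3 ≤ ((nb x).filter fun y => ω y = 0).card := by
  unfold fill at h; split_ifs at h with h1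
  · exact Or.inr h1.2
  · exact Or.inl h

theorem occ_subset_fill (ω : Site → Fin 3) (t : ℕ) : Occ ω t ⊆ Occ (fill ω) t := by
  classical
  induction t with
  | zero => exact fun x hx => fill_zero hx
  | succ t ih =>
    rintro x (hx | ⟨h1, h3⟩)
    · exact Or.inl (ih hx)
    · refine Or.inr ⟨fill_ne_one.2 h1, h3.trans (card_le_card fun y hy => ?_)⟩
      exact mem_filter.2 ⟨(mem_filter.1 hy).1, ih (mem_filter.1 hy).2⟩

/-- The cube of radius two around `y`. -/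
noncomputable def ball2 (y : Site) : Finset Site :=
  Icc (y.1 - 2) (y.1 + 2) ×ˢ Icc (y.2.1 - 2) (y.2.1 + 2) ×ˢ Icc (y.2.2 - 2) (y.2.2 + 2)

theorem card_ball2 (y : Site) : (ball2 y).card = 125 := by
  have h : ∀ m : ℤ, (Icc (m - 2) (m + 2)).card = 5 := by
    intro m
    rw [Int.card_Icc]
    have : m + 2 + 1 - (m - 2) = 5 := by ring
    rw [this]; rfl
  simp only [ball2, card_product, h]

theorem mem_nb' {x y : Site} : y ∈ nb x ↔
    (y.1 = x.1 + 1 ∧ y.2.1 = x.2.1 ∧ y.2.2 = x.2.2) ∨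
    (y.1 = x.1 - 1 ∧ y.2.1 = x.2.1 ∧ y.2.2 = x.2.2) ∨
    (y.1 = x.1 ∧ y.2.1 = x.2.1 + 1 ∧ y.2.2 = x.2.2) ∨
    (y.1 = x.1 ∧ y.2.1 = x.2.1 - 1 ∧ y.2.2 = x.2.2) ∨
    (y.1 = x.1 ∧ y.2.1 = x.2.1 ∧ y.2.2 = x.2.2 + 1) ∨
    (y.1 = x.1 ∧ y.2.1 = x.2.1 ∧ y.2.2 = x.2.2 - 1) := by
  obtain ⟨y1, y2, y3⟩ := y
  simp only [nb, mem_insert, mem_singleton, Prod.mk.injEq]

theorem nb_nb_ball {x y z : Site} (h1 : x ∈ nb y) (h2 : z ∈ nb x) : z ∈ ball2 y := by
  rw [mem_nb'] at h1 h2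
  simp only [ball2, mem_product, mem_Icc]
  omega

theorem nb_ball {x y : Site} (h1 : x ∈ nb y) : x ∈ ball2 y := by
  rw [mem_nb'] at h1
  simp only [ball2, mem_product, mem_Icc]
  omega

theorem no_triangle {x y z : Site} (h1 : x ∈ nb y) (h2 : z ∈ nb y) (h3 : z ∈ nb x) : False := by
  rw [mem_nb'] at h1 h2 h3
  omega

theorem common_nb {x y z a : Site} (h1 : x ∈ nb y) (h2 : z ∈ nb y) (hne : x ≠ z) (h3 : a ∈ nb x)
    (h4 : a ∈ nb z) : a = y ∨ a = x + z - y := by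
  have hne' : ¬ (x.1 = z.1 ∧ x.2.1 = z.2.1 ∧ x.2.2 = z.2.2) := fun h =>
    hne (Prod.ext h.1 (Prod.ext h.2.1 h.2.2))
  rw [mem_nb'] at h1 h2 h3 h4
  simp only [Prod.ext_iff, Prod.fst_sub, Prod.snd_sub, Prod.fst_add, Prod.snd_add]
  rcases h1 with h1 | h1 | h1 | h1 | h1 | h1 <;> rcases h2 with h2 | h2 | h2 | h2 | h2 | h2 <;>
    omega

/-- At most three initially occupied sites near `y`. -/
def Sparse (ω : Site → Fin 3) (y : Site) : Prop := ((ball2 y).filter fun z => ω z = 0).card ≤ 3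

theorem stable {ω : Site → Fin 3} {y : Site} (hs : Sparse ω y) (h0 : fill ω y ≠ 0)
    (h1 : fill ω y ≠ 1) : ((nb y).filter fun z => fill ω z = 0).card ≤ 2 := by
  by_contra hc
  push Not at hc
  have h2 : ((nb y).filter fun z => ω z = 0).card ≤ 2 := by
    by_contra h
    exact h0 (by unfold fill; rw [if_pos ⟨fill_ne_one.1 h1, by omega⟩])
  have key : ∀ x ∈ nb y, 3 ≤ ((nb x).filter fun z => ω z = 0).card →
      ((nb x).filter fun z => ω z = 0) = (ball2 y).filter fun z => ω z = 0 := by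
    intro x hx h3
    refine eq_of_subset_of_card_le (fun z hz => ?_) (le_trans hs h3)
    exact mem_filter.2 ⟨nb_nb_ball hx (mem_filter.1 hz).1, (mem_filter.1 hz).2⟩
  obtain ⟨x, hx, hx0⟩ : ∃ x ∈ (nb y).filter fun z => fill ω z = 0, ω x ≠ 0 := by
    by_contra h
    push Not at h
    have := card_le_card (s := (nb y).filter fun z => fill ω z = 0)
      (t := (nb y).filter fun z => ω z = 0) fun z hz => mem_filter.2 ⟨(mem_filter.1 hz).1, h z hz⟩
    omega
  obtain ⟨z, hz, hzx⟩ := exists_mem_ne (by omega : 1 < ((nb y).filter fun z => fill ω z = 0).card) x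
  obtain ⟨hx1, hx2⟩ := mem_filter.1 hx
  obtain ⟨hz1, hz2⟩ := mem_filter.1 hz
  have hx3 := (fill_cases hx2).resolve_left hx0
  have hxe := key x hx1 hx3
  rcases fill_cases hz2 with h | h
  · have : z ∈ (nb x).filter fun z => ω z = 0 := by
      rw [hxe]; exact mem_filter.2 ⟨nb_ball hz1, h⟩
    exact no_triangle hx1 hz1 (mem_filter.1 this).1
  · have hze := key z hz1 h
    have hsub : ((nb x).filter fun z => ω z = 0) ⊆ {y, x + z - y} := by
      intro a ha
      have ha' : a ∈ (nb z).filter fun z => ω z = 0 := by rw [hze, ← hxe]; exact ha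
      have := common_nb hx1 hz1 hzx.symm (mem_filter.1 ha).1 (mem_filter.1 ha').1
      simpa using this
    have := (card_le_card hsub).trans card_le_two
    omega

theorem nice_fill {ω : Site → Fin 3} {R : ℤ} {a : Site} (h : Nice ω R a) :
    Nice (fill ω) (R - 1) a := by
  have h1 : ∀ d ∈ cube R, fill ω (a + d) = ω (a + d) := by
    intro d hd
    unfold fill
    rw [if_neg]
    rintro ⟨k1, k2⟩
    by_cases hd0 : d = 0
    · rw [hd0, add_zero] at k1; exact k1 h.1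
    · have := h.2 d hd hd0
      omega
  refine ⟨by unfold fill; rw [if_neg (fun k => k.1 h.1)]; exact h.1, fun d hd hd0 => ?_⟩
  have hd' : d ∈ cube R := by rw [mem_cube] at hd ⊢; omega
  have h2 := h.2 d hd' hd0
  rwa [filter_congr (q := fun y => ω y = 0) (fun y hy => by
    have h3 : y - a ∈ cube R := by
      rw [mem_nb'] at hy
      rw [mem_cube] at hd ⊢
      simp only [Prod.fst_add, Prod.snd_add, Prod.fst_sub, Prod.snd_sub] at hy ⊢
      omega
    have := h1 _ h3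
    rw [add_sub_cancel] at this
    rw [this])]

theorem box_step' (ω : Site → Fin 3) (l : ℤ) (hl : 0 < l) (s : ℤ) (hs : s = 1 ∨ s = -1)
    (b : Site) (hb : (dirtyT (fill ω) l b).Nonempty) (hg : Good ω l (b - (s, s, s))) :
    ∃ u ∈ bnbr b, (dirtyT (fill ω) l u).Nonempty ∧
      sInf (dirtyT (fill ω) l u) < sInf (dirtyT (fill ω) l b) ∧ s * Lf b + 1 ≤ s * Lf u := by
  obtain ⟨x, hxb, hx, hx0⟩ := Nat.sInf_mem hb
  obtain ⟨a, hab, ha⟩ := hg
  rw [mem_box] at hxb hab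
  simp only [Prod.fst_sub, Prod.snd_sub] at hab
  obtain ⟨⟨x1, x1'⟩, ⟨x2, x2'⟩, x3, x3'⟩ := hxb
  obtain ⟨⟨a1, a1'⟩, ⟨a2, a2'⟩, a3, a3'⟩ := hab
  obtain ⟨y, t', ht', hy, hy0, y1, y2, y3, y4⟩ := local_step (fill ω) (9 * l - 1) a (nice_fill ha)
    s hs (s * Lf x + 3 * l) (by unfold Lf; rcases hs with rfl | rfl <;> linarith) x _ hx hx0
    (by rcases hs with rfl | rfl <;> linarith) (by rcases hs with rfl | rfl <;> linarith)
    (by rcases hs with rfl | rfl <;> linarith) (by linarith)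
  obtain ⟨u, hu⟩ := exists_box hl y
  have hmem : t' ∈ dirtyT (fill ω) l u := ⟨y, hu, hy, hy0⟩
  refine ⟨u, ?_, ⟨t', hmem⟩, (Nat.sInf_le hmem).trans_lt ht', ?_⟩
  · rw [mem_box] at hu
    obtain ⟨⟨u1, u1'⟩, ⟨u2, u2'⟩, u3, u3'⟩ := hu
    have key : ∀ m n : ℤ, l * m < l * (n + 1) → m ≤ n := fun m n h =>
      Int.le_of_lt_add_one (lt_of_mul_lt_mul_left h hl.le)
    unfold Lf at y4
    rw [mem_bnbr]
    rcases hs with rfl | rfl <;>
      refine ⟨⟨key _ _ ?_, key _ _ ?_⟩, ⟨key _ _ ?_, key _ _ ?_⟩, key _ _ ?_, key _ _ ?_⟩ <;>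
      linarith
  · rw [mem_box] at hu
    obtain ⟨⟨u1, u1'⟩, ⟨u2, u2'⟩, u3, u3'⟩ := hu
    have key : ∀ m n : ℤ, l * m < l * n → m + 1 ≤ n := fun m n h =>
      Int.add_one_le_of_lt (lt_of_mul_lt_mul_left h hl.le)
    unfold Lf at y4 ⊢
    rcases hs with rfl | rfl <;> apply key <;> linarith

theorem pred_step (ω : Site → Fin 3) (l : ℤ) (hl : 0 < l) (b : Site)
    (hb : (dirtyT (fill ω) l b).Nonempty) (hs : ∀ x ∈ box l b, Sparse ω x) :
    ∃ u ∈ bnbr b, (dirtyT (fill ω) l u).Nonempty ∧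
      sInf (dirtyT (fill ω) l u) < sInf (dirtyT (fill ω) l b) := by
  classical
  obtain ⟨x, hxb, hx, hx0⟩ := Nat.sInf_mem hb
  obtain ⟨t, ht⟩ : ∃ t, sInf (dirtyT (fill ω) l b) = t + 1 := by
    rcases h : sInf (dirtyT (fill ω) l b) with _ | t
    · rw [h] at hx; exact (hx0 hx).elim
    · exact ⟨t, rfl⟩
  rw [ht] at hx
  rcases hx with hx | ⟨h1, h3⟩
  · have := Nat.sInf_le (show t ∈ dirtyT (fill ω) l b from ⟨x, hxb, hx, hx0⟩)
    omega
  have h2 := stable (hs x hxb) hx0 h1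
  obtain ⟨y, hy, hy0⟩ : ∃ y ∈ (nb x).filter (· ∈ Occ (fill ω) t), fill ω y ≠ 0 := by
    by_contra h
    push Not at h
    have := card_le_card (s := (nb x).filter (· ∈ Occ (fill ω) t))
      (t := (nb x).filter fun z => fill ω z = 0)
      fun z hz => mem_filter.2 ⟨(mem_filter.1 hz).1, h z hz⟩
    omega
  obtain ⟨hy1, hy2⟩ := mem_filter.1 hy
  obtain ⟨u, hu⟩ := exists_box hl y
  have hmem : t ∈ dirtyT (fill ω) l u := ⟨y, hu, hy2, hy0⟩
  refine ⟨u, ?_, ⟨t, hmem⟩, by have := Nat.sInf_le hmem; omega⟩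
  rw [mem_box] at hu hxb
  obtain ⟨⟨u1, u1'⟩, ⟨u2, u2'⟩, u3, u3'⟩ := hu
  obtain ⟨⟨x1, x1'⟩, ⟨x2, x2'⟩, x3, x3'⟩ := hxb
  have key : ∀ m n : ℤ, l * m < l * (n + 1) → m ≤ n := fun m n h =>
    Int.le_of_lt_add_one (lt_of_mul_lt_mul_left h hl.le)
  have hy3 : (x.1 - 1 ≤ y.1 ∧ y.1 ≤ x.1 + 1) ∧ (x.2.1 - 1 ≤ y.2.1 ∧ y.2.1 ≤ x.2.1 + 1) ∧
      (x.2.2 - 1 ≤ y.2.2 ∧ y.2.2 ≤ x.2.2 + 1) := by
    rw [mem_nb'] at hy1; omega
  obtain ⟨⟨y1, y1'⟩, ⟨y2, y2'⟩, y3, y3'⟩ := hy3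
  rw [mem_bnbr]
  refine ⟨⟨key _ _ ?_, key _ _ ?_⟩, ⟨key _ _ ?_, key _ _ ?_⟩, key _ _ ?_, key _ _ ?_⟩ <;>
    linarith

/-- Boxes within sup-distance `R`. -/
noncomputable def near (R : ℤ) (b : Site) : Finset Site :=
  Icc (b.1 - R) (b.1 + R) ×ˢ Icc (b.2.1 - R) (b.2.1 + R) ×ˢ Icc (b.2.2 - R) (b.2.2 + R)

theorem mem_near {R : ℤ} {b u : Site} : u ∈ near R b ↔
    (b.1 - R ≤ u.1 ∧ u.1 ≤ b.1 + R) ∧ (b.2.1 - R ≤ u.2.1 ∧ u.2.1 ≤ b.2.1 + R) ∧
      (b.2.2 - R ≤ u.2.2 ∧ u.2.2 ≤ b.2.2 + R) := by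
  simp [near, mem_product]

theorem card_near (R : ℕ) (b : Site) : (near R b).card = (2 * R + 1) ^ 3 := by
  have h : ∀ m : ℤ, (Icc (m - R) (m + R)).card = 2 * R + 1 := by
    intro m
    rw [Int.card_Icc]
    omega
  simp only [near, card_product, h]
  ring

theorem Wk.mem_near {a b : Site} {n : ℕ} {S : Finset Site} (h : Wk bnbr a b n S) :
    b ∈ near (10 * n) a := by
  induction h with
  | nil a => simp [Pool.Agent.Lib.MP_0d8a84_pr.mem_near]
  | @cons a b c n S hab _ ih =>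
    rw [mem_bnbr] at hab
    rw [Pool.Agent.Lib.MP_0d8a84_pr.mem_near] at ih ⊢
    push_cast
    omega

open Classical in
theorem contour_far (ω : Site → Fin 3) (l : ℤ) (hl : 0 < l) (b : Site) (m : ℕ)
    (hs : ∀ u ∈ near (10 * m) b, ∀ x ∈ box l u, Sparse ω x)
    (hb : (dirtyT (fill ω) l b).Nonempty) :
    ∃ n, m ≤ n ∧ ∃ S ∈ fam bnbr n b, n + 62 ≤ 62 * (S.filter (Noise ω l)).card := by
  obtain ⟨w, hw, n, S, k, e⟩ := toom_far bnbr (fun a b h => by rw [mem_bnbr] at h ⊢; omega) Lf 30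
    (by norm_num) (fun a b h => by rw [mem_bnbr] at h; unfold Lf; omega) (Noise ω l)
    (fun u => u ∉ near (10 * m) b)
    (fun b => (dirtyT (fill ω) l b).Nonempty) (fun b => sInf (dirtyT (fill ω) l b))
    (fun v hv hN => by
      have hg : Good ω l (v - (1, 1, 1)) := by
        by_contra h; exact hN (Or.inl h)
      simpa using box_step' ω l hl 1 (Or.inl rfl) v hv hg)
    (fun v hv hN => by
      have hg : Good ω l (v - (-1, -1, -1)) := by
        by_contra h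
        refine hN (Or.inr ?_)
        convert h using 2
        ext <;> simp
      obtain ⟨u, h1, h2, h3, h4⟩ := box_step' ω l hl (-1) (Or.inr rfl) v hv hg
      exact ⟨u, h1, h2, h3, by linarith⟩)
    (fun v hv hS => pred_step ω l hl v hv (hs v (not_not.1 hS))) b hb
  refine ⟨n, ?_, S, k.mem_fam, ?_⟩
  · have h1 := k.mem_near
    by_contra h
    apply hw
    rw [mem_near] at h1 ⊢
    omega
  · have : (n : ℤ) + 62 ≤ 62 * ((S.filter (Noise ω l)).card : ℤ) := by linarith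
    exact_mod_cast this

variable (μ : Measure (Fin 3)) [IsProbabilityMeasure μ]

theorem cyl0 (T : Finset Site) :
    (PP μ).real {ω | ∀ y ∈ T, ω y = 0} = μ.real {0} ^ T.card := by
  have e : {ω : Site → Fin 3 | ∀ y ∈ T, ω y = 0} =
      Set.pi (T : Set Site) (fun _ => ({0} : Set (Fin 3))) := by
    ext ω; simp
  rw [e, Measure.real, PP, Measure.infinitePi_pi _ (fun i _ => (Set.toFinite _).measurableSet),
    prod_const, ENNReal.toReal_pow]
  rfl

theorem many_le (B : Finset Site) (k : ℕ) :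
    (PP μ).real {ω | k ≤ (B.filter fun y => ω y = 0).card} ≤ 2 ^ B.card * μ.real {0} ^ k := by
  classical
  have hsub : {ω : Site → Fin 3 | k ≤ (B.filter fun y => ω y = 0).card} ⊆
      ⋃ T ∈ B.powersetCard k, {ω | ∀ y ∈ T, ω y = 0} := by
    intro ω h
    obtain ⟨T, hT, hc⟩ := exists_subset_card_eq (show k ≤ (B.filter fun y => ω y = 0).card from h)
    simp only [Set.mem_iUnion]
    exact ⟨T, mem_powersetCard.2 ⟨hT.trans (filter_subset _ _), hc⟩,
      fun y hy => (mem_filter.1 (hT hy)).2⟩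
  refine (measureReal_mono hsub (measure_ne_top _ _)).trans
    ((measureReal_biUnion_finset_le _ _).trans ?_)
  refine (sum_le_card_nsmul _ _ (μ.real {0} ^ k) fun T hT => ?_).trans ?_
  · rw [cyl0, (mem_powersetCard.1 hT).2]
  · rw [nsmul_eq_mul]
    refine mul_le_mul_of_nonneg_right ?_ (by positivity)
    have : (B.powersetCard k).card ≤ 2 ^ B.card := by
      refine (card_le_card (fun T hT => mem_powerset.2 (mem_powersetCard.1 hT).1)).trans ?_
      rw [card_powerset]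
    exact_mod_cast this

theorem far_bound (l : ℤ) (hl : 0 < l) (η : ℝ) (hη0 : 0 ≤ η) (hη : 37044 * η ≤ 1)
    (K : ℕ) (hK : K = 62 * 12167)
    (hδ : ∀ b, (PP μ).real {ω | Noise ω l b} ≤ η ^ K) (b0 : Site) (m : ℕ) :
    PP μ {ω | (∀ u ∈ near (10 * m) b0, ∀ x ∈ box l u, Sparse ω x) ∧
      (dirtyT (fill ω) l b0).Nonempty} ≤ ENNReal.ofReal ((1 / 2) ^ m) := by
  classical
  let E : ℕ → Set (Site → Fin 3) := fun n => ⋃ S ∈ fam bnbr n b0,
    ⋃ T ∈ S.powerset.filter (Big K n), {ω | ∀ b ∈ T, ω ∈ {ω | Noise ω l b}}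
  have hsub : {ω | (∀ u ∈ near (10 * m) b0, ∀ x ∈ box l u, Sparse ω x) ∧
      (dirtyT (fill ω) l b0).Nonempty} ⊆ ⋃ j, E (m + j) := by
    rintro ω ⟨hω1, hω⟩
    obtain ⟨n, hmn, S, hS, hn⟩ := contour_far ω l hl b0 m hω1 hω
    obtain ⟨j, rfl⟩ := Nat.exists_eq_add_of_le hmn
    obtain ⟨T, hT, hc, hcol⟩ := exists_mono_subset (S.filter (Noise ω l))
    simp only [E, Set.mem_iUnion]
    refine ⟨j, S, hS, T, mem_filter.2 ⟨mem_powerset.2 (hT.trans (filter_subset _ _)), ?_, hcol⟩,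
      fun b hb => (mem_filter.1 (hT hb)).2⟩
    rw [hK]
    omega
  have hη1 : η ≤ 1 := by linarith
  have hE : ∀ n, (PP μ).real (E n) ≤ 2 * η * (1 / 2) ^ n := by
    intro n
    refine (measureReal_biUnion_finset_le _ _).trans ?_
    have h1 : ∀ S ∈ fam bnbr n b0, (PP μ).real (⋃ T ∈ S.powerset.filter (Big K n),
          {ω | ∀ b ∈ T, ω ∈ {ω | Noise ω l b}}) ≤ 2 ^ (n + 1) * η ^ (n + 1) := by
      intro S hS
      refine (measureReal_biUnion_finset_le _ _).trans ?_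
      refine (sum_le_card_nsmul _ _ (η ^ (n + 1)) fun T hT => ?_).trans ?_
      · obtain ⟨-, h1, h2⟩ := mem_filter.1 hT
        refine (meas_forall_le μ (fun b => {ω | Noise ω l b}) (reg l) (dep_noise l hl) _ hδ T
          fun b hb b' hb' hne => disjoint_reg l hl b b' (h2 b hb b' hb') hne).trans ?_
        rw [← pow_mul]
        exact pow_le_pow_of_le_one hη0 hη1 h1
      · rw [nsmul_eq_mul]
        gcongr
        have : (S.powerset.filter (Big K n)).card ≤ 2 ^ (n + 1) := by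
          refine (card_filter_le _ _).trans ?_
          rw [card_powerset]
          exact Nat.pow_le_pow_right (by norm_num) (card_le_of_mem_fam _ _ _ _ hS)
        exact_mod_cast this
    refine (sum_le_card_nsmul _ _ _ h1).trans ?_
    rw [nsmul_eq_mul]
    have h2 : ((fam bnbr n b0).card : ℝ) ≤ 9261 ^ n := by
      exact_mod_cast card_fam_le bnbr 9261 (fun a => (card_bnbr a).le) n b0
    calc ((fam bnbr n b0).card : ℝ) * (2 ^ (n + 1) * η ^ (n + 1))
        ≤ 9261 ^ n * (2 ^ (n + 1) * η ^ (n + 1)) := by gcongr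
      _ = 2 * η * (9261 * 2 * η) ^ n := by rw [mul_pow, mul_pow]; ring
      _ ≤ 2 * η * (1 / 2) ^ n := by gcongr; linarith
  refine (measure_mono hsub).trans ((measure_iUnion_le _).trans ?_)
  have hsum : Summable fun j : ℕ => 2 * η * (1 / 2 : ℝ) ^ m * (1 / 2) ^ j :=
    summable_geometric_two.mul_left _
  calc ∑' j, PP μ (E (m + j)) ≤ ∑' j, ENNReal.ofReal (2 * η * (1 / 2) ^ m * (1 / 2) ^ j) := by
        refine ENNReal.tsum_le_tsum fun j => ?_
        rw [← ofReal_measureReal (measure_ne_top _ _)]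
        refine ENNReal.ofReal_le_ofReal ((hE (m + j)).trans (le_of_eq ?_))
        rw [pow_add, mul_assoc (2 * η)]
    _ = ENNReal.ofReal (∑' j : ℕ, 2 * η * (1 / 2) ^ m * (1 / 2) ^ j) :=
        (ENNReal.ofReal_tsum_of_nonneg (fun n => by positivity) hsum).symm
    _ ≤ ENNReal.ofReal ((1 / 2) ^ m) := by
        rw [tsum_mul_left, tsum_geometric_two]
        refine ENNReal.ofReal_le_ofReal ?_
        have : (0 : ℝ) < (1 / 2) ^ m := by positivity
        nlinarith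

end Pool.Agent.Lib.MP_0d8a84_pr
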