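import Mathlib
import Pool.Agent.Lib.MP_0d8a84_pr.Far

/-!
The final density is at most `C p (log (1 / p)) ^ 3` as soon as `q ≥ C p ^ 3`.
-/

set_option autoImplicit false

namespace Pool.Agent.Lib.MP_0d8a84_pr

open MeasureTheory ProbabilityTheory Filter Topology

theorem exists_params : ∃ θ M : ℝ, 0 < θ ∧ 1 ≤ M ∧ ∀ (μ : Measure (Fin 3))
    [IsProbabilityMeasure μ] (l : ℕ), M ≤ μ.real {1} * l ^ 3 → μ.real {1} * l ^ 3 ≤ 8 * M →
    l * μ.real {0} ≤ θ → ∀ b, (PP μ).real {ω | Noise ω l b} ≤ (1 / 37044) ^ (62 * 12167) := by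
  obtain ⟨δ, hδe⟩ : ∃ δ : ℝ, δ = (1 / 37044) ^ (62 * 12167) := ⟨_, rfl⟩
  have hδ : 0 < δ / 4 := by rw [hδe]; positivity
  rw [← hδe]
  obtain ⟨M, hM1, hM2⟩ : ∃ M : ℝ, 1 ≤ M ∧ Real.exp (-M) ≤ δ / 4 :=
    ((eventually_ge_atTop 1).and
      (Real.tendsto_exp_neg_atTop_nhds_zero.eventually (ge_mem_nhds hδ))).exists
  obtain ⟨θ, hθ0, hθ⟩ : ∃ θ : ℝ, 0 < θ ∧ 8 * M * 64 * ((1 + 18 * θ) ^ 3 - 1) ≤ δ / 4 := by
    have hc : Tendsto (fun t : ℝ => 8 * M * 64 * ((1 + 18 * t) ^ 3 - 1)) (𝓝[>] 0) (𝓝 0) := by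
      refine tendsto_nhdsWithin_of_tendsto_nhds ?_
      have : Continuous fun t : ℝ => 8 * M * 64 * ((1 + 18 * t) ^ 3 - 1) := by fun_prop
      simpa using this.tendsto 0
    exact ((eventually_mem_nhdsWithin (a := (0 : ℝ)) (s := Set.Ioi 0)).and
      (hc.eventually (ge_mem_nhds hδ))).exists
  refine ⟨θ, M, hθ0, hM1, fun μ _ l hl1 hl2 hlp b => ?_⟩
  refine (noise_le μ l b).trans ?_
  have hpn : 0 ≤ μ.real {0} := measureReal_nonneg
  have hqn : 0 ≤ μ.real {1} := measureReal_nonneg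
  have hq1 : μ.real {1} ≤ 1 := measureReal_le_one
  set p := μ.real {0}
  set q := μ.real {1}
  have k1 : (1 - q) ^ (l ^ 3) ≤ δ / 4 := by
    refine le_trans ?_ hM2
    calc (1 - q) ^ (l ^ 3) ≤ Real.exp (-q) ^ (l ^ 3) := by
          exact pow_le_pow_left₀ (by linarith) (Real.one_sub_le_exp_neg _) _
      _ = Real.exp (-(q * l ^ 3)) := by
          rw [← Real.exp_nat_mul]
          congr 1
          push_cast
          ring
      _ ≤ Real.exp (-M) := by gcongr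
  have k2 : (l : ℝ) ^ 3 * (64 * q * ((1 + 18 * l * p) ^ 3 - 1)) ≤ δ / 4 := by
    refine le_trans ?_ hθ
    have a1 : (1 + 18 * l * p) ^ 3 - 1 ≤ (1 + 18 * θ) ^ 3 - 1 := by
      gcongr ?_ ^ 3 - 1
      linarith
    have a2 : 0 ≤ (1 + 18 * l * p) ^ 3 - 1 := by
      have : (1 : ℝ) ≤ (1 + 18 * l * p) ^ 3 := one_le_pow₀ (by
        have : 0 ≤ 18 * l * p := by positivity
        linarith)
      linarith
    calc (l : ℝ) ^ 3 * (64 * q * ((1 + 18 * l * p) ^ 3 - 1))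
        = (q * l ^ 3) * 64 * ((1 + 18 * l * p) ^ 3 - 1) := by ring
      _ ≤ _ := by gcongr
  linarith

theorem density_le : ∃ C : ℝ, 0 < C ∧ ∀ (μ : Measure (Fin 3)) [IsProbabilityMeasure μ],
    0 < μ.real {0} → μ.real {0} ≤ 1 / 2 → C * μ.real {0} ^ 3 ≤ μ.real {1} →
    PP μ {ω | ∃ t, (0 : Site) ∈ Occ ω t} ≤
      ENNReal.ofReal (C * μ.real {0} * Real.log (1 / μ.real {0}) ^ 3) := by
  classical
  obtain ⟨θ, M, hθ, hM, hpar⟩ := exists_params
  obtain ⟨B, hB⟩ : ∃ B : ℝ, B = 2 ^ 125 := ⟨_, rfl⟩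
  have hB0 : 0 < B := by rw [hB]; positivity
  have hc1 : 0 < 8 * M / θ ^ 3 := by positivity
  have hc2 : 0 < 63 ^ 3 * θ ^ 3 * B := by positivity
  refine ⟨8 * M / θ ^ 3 + 528 + 63 ^ 3 * θ ^ 3 * B, by positivity, fun μ _ hp0 hp1 hpq => ?_⟩
  have hq1 : μ.real {1} ≤ 1 := measureReal_le_one
  have hmany := many_le μ
  have hcyl := cyl0 μ {0}
  have hpar' := hpar μ
  set p := μ.real {0} with hp
  set q := μ.real {1} with hq
  have hp3 : 0 < p ^ 3 := by positivity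
  have hpq' : 8 * M / θ ^ 3 * p ^ 3 ≤ q := by nlinarith
  have hq0 : 0 < q := lt_of_lt_of_le (by positivity) hpq'
  obtain ⟨l, hl0, hl1, hl2⟩ := exists_scale q M hq0 hq1 hM
  have hlp3 : (l * p) ^ 3 ≤ θ ^ 3 := by
    have e1 : 8 * M / θ ^ 3 * p ^ 3 * l ^ 3 ≤ 8 * M :=
      (mul_le_mul_of_nonneg_right hpq' (by positivity)).trans hl2
    have e2 : 8 * M / θ ^ 3 * p ^ 3 * l ^ 3 = 8 * M * ((l * p) ^ 3 / θ ^ 3) := by ring
    rw [e2] at e1
    have e3 : (l * p) ^ 3 / θ ^ 3 ≤ 1 := by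
      by_contra h
      push Not at h
      nlinarith
    rwa [div_le_one (by positivity)] at e3
  have hlp : l * p ≤ θ := (pow_le_pow_iff_left₀ (by positivity) hθ.le (by norm_num)).1 hlp3
  have hl' : (0 : ℤ) < l := by exact_mod_cast hl0
  obtain ⟨b0, hb0⟩ := exists_box hl' (0 : Site)
  set Lg := Real.log (1 / p) with hLg
  have hlog2 := Real.log_two_gt_d9
  have hLg2 : Real.log 2 ≤ Lg := by
    apply Real.log_le_log (by norm_num)
    rw [le_div_iff₀ hp0]; linarith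
  set m : ℕ := ⌈Lg / Real.log 2⌉₊ with hm
  have hm1 : Lg / Real.log 2 ≤ m := Nat.le_ceil _
  have hm2 : (m : ℝ) < Lg / Real.log 2 + 1 :=
    Nat.ceil_lt_add_one (div_nonneg (by linarith) (by linarith))
  have hm3 : 20 * (m : ℝ) + 1 ≤ 63 * Lg := by
    have h1 : Lg / Real.log 2 ≤ 3 / 2 * Lg := by
      rw [div_le_iff₀ (by linarith)]; nlinarith
    linarith
  have hm4 : (1 / 2 : ℝ) ^ m ≤ p := by
    rw [div_le_iff₀ (by linarith)] at hm1
    have h1 : 1 / p ≤ 2 ^ m := by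
      rw [← Real.log_le_log_iff (by positivity) (by positivity), Real.log_pow]
      exact hm1
    rw [one_div_pow, div_le_iff₀ (by positivity)]
    rw [div_le_iff₀ hp0] at h1
    linarith
  have hsub : {ω : Site → Fin 3 | ∃ t, (0 : Site) ∈ Occ ω t} ⊆
      (({ω | ∀ y ∈ ({0} : Finset Site), ω y = 0} ∪
        {ω | 3 ≤ ((nb 0).filter fun y => ω y = 0).card}) ∪
      ⋃ u ∈ near (10 * m) b0, ⋃ x ∈ box l u,
        {ω | 4 ≤ ((ball2 x).filter fun y => ω y = 0).card}) ∪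
      {ω | (∀ u ∈ near (10 * m) b0, ∀ x ∈ box l u, Sparse ω x) ∧
        (dirtyT (fill ω) l b0).Nonempty} := by
    rintro ω ⟨t, ht⟩
    by_cases h : fill ω 0 = 0
    · rcases fill_cases h with h | h
      · exact Or.inl (Or.inl (Or.inl (by simpa using h)))
      · exact Or.inl (Or.inl (Or.inr h))
    by_cases hs : ∀ u ∈ near (10 * m) b0, ∀ x ∈ box l u, Sparse ω x
    · exact Or.inr ⟨hs, t, 0, hb0, occ_subset_fill ω t ht, h⟩
    · push Not at hs
      obtain ⟨u, hu, x, hx, hs⟩ := hs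
      refine Or.inl (Or.inr ?_)
      simp only [Set.mem_iUnion]
      exact ⟨u, hu, x, hx, by unfold Sparse at hs; exact not_le.1 hs⟩
  have h1 : (PP μ).real {ω | 3 ≤ ((nb 0).filter fun y => ω y = 0).card} ≤ 64 * p := by
    refine (hmany _ _).trans ?_
    have h2 : (2 : ℝ) ^ (nb 0).card ≤ 2 ^ 6 := pow_le_pow_right₀ (by norm_num) (card_nb_le 0)
    have h3 : p ^ 3 ≤ p := pow_le_of_le_one hp0.le (by linarith) (by norm_num)
    nlinarith
  have h2 : (PP μ).real (⋃ u ∈ near (10 * m) b0, ⋃ x ∈ box l u,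
      {ω | 4 ≤ ((ball2 x).filter fun y => ω y = 0).card}) ≤ 63 ^ 3 * θ ^ 3 * B * p * Lg ^ 3 := by
    refine (measureReal_biUnion_finset_le _ _).trans ?_
    refine (Finset.sum_le_card_nsmul _ _ (l ^ 3 * (B * p ^ 4)) fun u _ => ?_).trans ?_
    · refine (measureReal_biUnion_finset_le _ _).trans ?_
      refine (Finset.sum_le_card_nsmul _ _ (B * p ^ 4) fun x _ => ?_).trans ?_
      · refine (hmany _ _).trans (le_of_eq ?_)
        rw [card_ball2, hB]
      · rw [card_box, nsmul_eq_mul]; push_cast; exact le_rfl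
    · have e : (10 * m : ℤ) = ((10 * m : ℕ) : ℤ) := by push_cast; rfl
      rw [e, card_near, nsmul_eq_mul]
      push_cast
      have h3 : (2 * (10 * (m : ℝ)) + 1) ^ 3 ≤ (63 * Lg) ^ 3 :=
        pow_le_pow_left₀ (by positivity) (by linarith) 3
      calc (2 * (10 * (m : ℝ)) + 1) ^ 3 * (l ^ 3 * (B * p ^ 4))
          = (2 * (10 * (m : ℝ)) + 1) ^ 3 * ((l * p) ^ 3 * (B * p)) := by ring
        _ ≤ (63 * Lg) ^ 3 * (θ ^ 3 * (B * p)) :=
            mul_le_mul h3 (mul_le_mul_of_nonneg_right hlp3 (by positivity)) (by positivity)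
              (le_trans (by positivity) h3)
        _ = _ := by ring
  have h3 := far_bound μ l hl' (1 / 37044) (by norm_num) (by norm_num) _ rfl
    (hpar' l hl1 hl2 hlp) b0 m
  have h4 : PP μ (({ω | ∀ y ∈ ({0} : Finset Site), ω y = 0} ∪
        {ω | 3 ≤ ((nb 0).filter fun y => ω y = 0).card}) ∪
      ⋃ u ∈ near (10 * m) b0, ⋃ x ∈ box l u,
        {ω | 4 ≤ ((ball2 x).filter fun y => ω y = 0).card}) ≤
      ENNReal.ofReal (65 * p + 63 ^ 3 * θ ^ 3 * B * p * Lg ^ 3) := by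
    rw [← ofReal_measureReal (measure_ne_top _ _)]
    refine ENNReal.ofReal_le_ofReal ((measureReal_union_le _ _).trans (add_le_add
      ((measureReal_union_le _ _).trans ?_) h2))
    rw [hcyl, Finset.card_singleton, pow_one]
    linarith
  refine (measure_mono hsub).trans ((measure_union_le _ _).trans ((add_le_add h4 h3).trans ?_))
  have hLg0 : 1 / 2 ≤ Lg := by linarith
  rw [← ENNReal.ofReal_add (by positivity) (by positivity)]
  refine ENNReal.ofReal_le_ofReal ?_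
  have h5 : (1 / 2 : ℝ) ^ 3 ≤ Lg ^ 3 := pow_le_pow_left₀ (by norm_num) hLg0 3
  have h6 : 0 ≤ 8 * M / θ ^ 3 * p * Lg ^ 3 := by positivity
  have h7 := mul_le_mul_of_nonneg_left h5 hp0.le
  nlinarith

end Pool.Agent.Lib.MP_0d8a84_pr
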